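import Pool.Agent.ABL.Defs
import Pool.Agent.ABL.Sums

/-!
# ABL, module Chain: comparison of slopes along the levels
-/

namespace ABL

theorem Chain_V_lower {s k : ℕ} (hk : Lev s k) : (3 * 2 ^ s : ℤ) ≤ 2 * (V k : ℤ) := by
  unfold Lev at hk
  have h : 3 * 2 ^ s ≤ 2 * V k := by
    unfold V
    omega
  exact_mod_cast h

theorem Chain_V_upper {s k : ℕ} (hk : Lev s k) : 2 * (V k : ℤ) ≤ 6 * 2 ^ s := by
  unfold Lev at hk
  have h : 2 * V k ≤ 6 * 2 ^ s := by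
    have : 2 ^ (s + 1) = 2 * 2 ^ s := by ring
    unfold V
    omega
  exact_mod_cast h

theorem Chain_V_pos (k : ℕ) : 0 < V k := by
  unfold V
  omega

theorem Chain_pos {Y : ℤ → ℤ} {p : ℤ} {s k : ℕ} (hk : Lev s k) (hp : Pos Y p k) {u : ℤ}
    (hu : |u - p| ≤ 98304 * 2 ^ s) : 0 ≤ F Y (V k) u := by
  have h1 := Chain_V_lower hk
  have h2 := hp u (by linarith)
  linarith

theorem Chain_exists {Y : ℤ → ℤ} {p : ℤ} {s0 T s : ℕ} (hg : GA Y p s0 T) (h1 : s0 < s)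
    (h2 : s ≤ T) : ∃ k, Lev s k ∧ Pos Y p k := by
  classical
  by_contra hcon
  push Not at hcon
  have hgood := hg s h1 h2
  unfold Good nb at hgood
  have h3 : (Finset.Ico (2 ^ s) (2 ^ (s + 1))).filter (fun k => ¬ Pos Y p k) =
      Finset.Ico (2 ^ s) (2 ^ (s + 1)) := by
    rw [Finset.filter_eq_self]
    intro k hk
    rw [Finset.mem_Ico] at hk
    exact hcon k hk
  have h4 : (Finset.Ico (2 ^ s) (2 ^ (s + 1))).card = 2 ^ s := by
    rw [Nat.card_Ico, pow_succ]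
    omega
  have h5 : ((Finset.Ico (2 ^ s) (2 ^ (s + 1))).filter (fun k => ¬ Pos Y p k)).card = 2 ^ s := by
    rw [h3, h4]
  have h6 : 2 ^ s * 2 ^ 21 < 2 ^ s := by
    calc 2 ^ s * 2 ^ 21 =
        ((Finset.Ico (2 ^ s) (2 ^ (s + 1))).filter (fun k => ¬ Pos Y p k)).card * 2 ^ 21 := by
          rw [h5]
      _ < 2 ^ s := by convert hgood
  have : 0 < 2 ^ s := by positivity
  omega

theorem Chain_step {Y : ℤ → ℤ} {p : ℤ} {s s' k k' : ℕ} (hk : Lev s k) (hp : Pos Y p k)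
    (hk' : Lev s' k') (hp' : Pos Y p k') {z z' : ℤ} (hz : z + 6 * 2 ^ s ≤ z')
    (h1 : ∀ u, z ≤ u → u < z + 6 * 2 ^ s' → |u - p| ≤ 98304 * 2 ^ s)
    (h2 : ∀ u, z ≤ u → u < z' → |u - p| ≤ 98304 * 2 ^ s') :
    (V k' : ℤ) ^ 2 * S Y (V k) z ≤ (V k : ℤ) ^ 2 * S Y (V k') z' := by
  have a1 := Chain_V_upper hk
  have a2 := Chain_V_upper hk'
  refine S_comp Y (V k) (V k') (Chain_V_pos k) (Chain_V_pos k') z z' ?_ ?_ (by linarith)
  · intro u hu1 hu2
    exact Chain_pos hk hp (h1 u hu1 (by linarith))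
  · intro u hu1 hu2
    exact Chain_pos hk' hp' (h2 u hu1 hu2)

theorem Chain_cancel {a b c x y w : ℤ} (hb : 0 < b) (h1 : b ^ 2 * x ≤ a ^ 2 * y)
    (h2 : c ^ 2 * y ≤ b ^ 2 * w) : c ^ 2 * x ≤ a ^ 2 * w := by
  have h3 : b ^ 2 * (c ^ 2 * x) ≤ b ^ 2 * (a ^ 2 * w) := by
    calc b ^ 2 * (c ^ 2 * x) = c ^ 2 * (b ^ 2 * x) := by ring
      _ ≤ c ^ 2 * (a ^ 2 * y) := mul_le_mul_of_nonneg_left h1 (by positivity)
      _ = a ^ 2 * (c ^ 2 * y) := by ring
      _ ≤ a ^ 2 * (b ^ 2 * w) := mul_le_mul_of_nonneg_left h2 (by positivity)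
      _ = b ^ 2 * (a ^ 2 * w) := by ring
  exact le_of_mul_le_mul_left h3 (by positivity)

theorem Chain_abs {z0 p u a b c : ℤ} (hz0 : |z0 - p| ≤ a) (hu : |u - z0| ≤ b) (h : a + b ≤ c) :
    |u - p| ≤ c := by
  have : u - p = (u - z0) + (z0 - p) := by ring
  rw [this]
  exact (abs_add_le _ _).trans (by linarith)

theorem chain_up (Y : ℤ → ℤ) (p : ℤ) (s0 T k0 : ℕ) (z0 : ℤ) (hg : GA Y p s0 T)
    (hk0 : Lev s0 k0) (hp0 : Pos Y p k0) (hz0 : |z0 - p| ≤ 69632 * 2 ^ s0)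
    (s k : ℕ) (hs : s0 ≤ s) (hsT : s ≤ T) (hk : Lev s k) (hp : Pos Y p k) :
    (V k : ℤ) ^ 2 * S Y (V k0) z0 ≤ (V k0 : ℤ) ^ 2 * S Y (V k) (z0 + 8 * 2 ^ s) := by
  induction s, hs using Nat.le_induction generalizing k with
  | base =>
    have ha : (0 : ℤ) < 2 ^ s0 := by positivity
    refine Chain_step hk0 hp0 hk hp (by linarith) (fun u h1 h2 => ?_) (fun u h1 h2 => ?_)
    · refine Chain_abs hz0 (b := 6 * 2 ^ s0) ?_ (by linarith)
      rw [abs_of_nonneg (by linarith)]; linarith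
    · refine Chain_abs hz0 (b := 8 * 2 ^ s0) ?_ (by linarith)
      rw [abs_of_nonneg (by linarith)]; linarith
  | succ s hs ih =>
    have ha : (0 : ℤ) < 2 ^ s0 := by positivity
    have hab : (2 : ℤ) ^ s0 ≤ 2 ^ s := pow_le_pow_right₀ (by norm_num) hs
    have hb : (2 : ℤ) ^ (s + 1) = 2 * 2 ^ s := by ring
    obtain ⟨k', hk', hp'⟩ : ∃ k', Lev s k' ∧ Pos Y p k' := by
      rcases Nat.eq_or_lt_of_le hs with h | h
      · rw [← h]; exact ⟨k0, hk0, hp0⟩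
      · exact Chain_exists hg h (by omega)
    have h1 := ih k' (by omega) hk' hp'
    have h2 := Chain_step (z := z0 + 8 * 2 ^ s) (z' := z0 + 8 * 2 ^ (s + 1)) hk' hp' hk hp
      (by rw [hb]; linarith) (fun u h1 h2 => by
        refine Chain_abs hz0 (b := 20 * 2 ^ s) ?_ (by linarith)
        rw [hb] at h2
        rw [abs_of_nonneg (by linarith)]; linarith) (fun u h1 h2 => by
        rw [hb] at h2 ⊢
        refine Chain_abs hz0 (b := 16 * 2 ^ s) ?_ (by linarith)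
        rw [abs_of_nonneg (by linarith)]; linarith)
    exact Chain_cancel (b := (V k' : ℤ)) (by exact_mod_cast Chain_V_pos k') h1 h2

theorem chain_down (Y : ℤ → ℤ) (p : ℤ) (s0 T k0 : ℕ) (z0 : ℤ) (hg : GA Y p s0 T)
    (hk0 : Lev s0 k0) (hp0 : Pos Y p k0) (hz0 : |z0 - p| ≤ 69632 * 2 ^ s0)
    (s k : ℕ) (hs : s0 ≤ s) (hsT : s ≤ T) (hk : Lev s k) (hp : Pos Y p k) :
    (V k0 : ℤ) ^ 2 * S Y (V k) (z0 - 8 * 2 ^ s) ≤ (V k : ℤ) ^ 2 * S Y (V k0) z0 := by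
  induction s using Nat.strong_induction_on generalizing k with
  | _ s ih =>
    have ha : (0 : ℤ) < 2 ^ s0 := by positivity
    have hab : (2 : ℤ) ^ s0 ≤ 2 ^ s := pow_le_pow_right₀ (by norm_num) hs
    by_cases hcase : s ≤ s0 + 1
    · -- directly
      have hba : (2 : ℤ) ^ s ≤ 2 * 2 ^ s0 := by
        calc (2 : ℤ) ^ s ≤ 2 ^ (s0 + 1) := pow_le_pow_right₀ (by norm_num) hcase
          _ = 2 * 2 ^ s0 := by ring
      refine Chain_step hk hp hk0 hp0 (by linarith) (fun u h1 h2 => ?_) (fun u h1 h2 => ?_)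
      · refine Chain_abs hz0 (b := 8 * 2 ^ s) ?_ (by linarith)
        rw [abs_le]; constructor <;> linarith
      · refine Chain_abs hz0 (b := 8 * 2 ^ s) ?_ (by linarith)
        rw [abs_le]; constructor <;> linarith
    · push Not at hcase
      obtain ⟨r, rfl⟩ : ∃ r, s = r + 2 := ⟨s - 2, by omega⟩
      have hr : s0 ≤ r := by omega
      have hab' : (2 : ℤ) ^ s0 ≤ 2 ^ r := pow_le_pow_right₀ (by norm_num) hr
      have hb : (2 : ℤ) ^ (r + 2) = 4 * 2 ^ r := by ring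
      obtain ⟨k', hk', hp'⟩ : ∃ k', Lev r k' ∧ Pos Y p k' := by
        rcases Nat.eq_or_lt_of_le hr with h | h
        · rw [← h]; exact ⟨k0, hk0, hp0⟩
        · exact Chain_exists hg h (by omega)
      have h1 := ih r (by omega) k' hr (by omega) hk' hp'
      have h2 := Chain_step (z := z0 - 8 * 2 ^ (r + 2)) (z' := z0 - 8 * 2 ^ r) hk hp hk' hp'
        (by rw [hb]; linarith) (fun u h1 h2 => by
          rw [hb] at h1 h2 ⊢
          refine Chain_abs hz0 (b := 32 * 2 ^ r) ?_ (by linarith)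
          rw [abs_le]; constructor <;> linarith) (fun u h1 h2 => by
          rw [hb] at h1
          refine Chain_abs hz0 (b := 32 * 2 ^ r) ?_ (by linarith)
          rw [abs_le]; constructor <;> linarith)
      exact Chain_cancel (b := (V k' : ℤ)) (by exact_mod_cast Chain_V_pos k') h2 h1

end ABL
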