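import Pool.Agent.ABL.Defs

namespace ABL

open Classical in
private noncomputable def nB (bad : ℤ → ℕ → Prop) (p : ℤ) (t : ℕ) : ℕ :=
  ((Finset.Ico (2 ^ t) (2 ^ (t + 1))).filter (fun k => bad p k)).card

open Classical in
private noncomputable def dB (bad : ℤ → ℕ → Prop) (p : ℤ) (t : ℕ) : Finset ℕ :=
  (Finset.Ico (2 ^ t) (2 ^ (t + 1))).filter
    (fun k => bad p k ∧ (¬ bad p (2 * k) ∨ ¬ bad p (2 * k + 1)))

private theorem count_step (bad : ℤ → ℕ → Prop) (p : ℤ) (t : ℕ) :
    2 * nB bad p t ≤ nB bad p (t + 1) + 2 * (dB bad p t).card := by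
  classical
  set E := (Finset.Ico (2 ^ t) (2 ^ (t + 1))).filter
    (fun k => bad p k ∧ (bad p (2 * k) ∧ bad p (2 * k + 1))) with hE
  have h1 : nB bad p t = E.card + (dB bad p t).card := by
    unfold nB dB
    rw [hE, ← Finset.card_union_of_disjoint]
    · congr 1
      ext k
      simp only [Finset.mem_filter, Finset.mem_union]
      tauto
    · rw [Finset.disjoint_left]
      intro k hk hk'
      simp only [Finset.mem_filter] at hk hk'
      tauto
  have h2 : 2 * E.card ≤ nB bad p (t + 1) := by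
    have ha : (E.image (fun k => 2 * k)).card = E.card :=
      Finset.card_image_of_injective _ (fun a b h => by simpa using h)
    have hb : (E.image (fun k => 2 * k + 1)).card = E.card :=
      Finset.card_image_of_injective _ (fun a b h => by simpa using h)
    have hd : Disjoint (E.image (fun k => 2 * k)) (E.image (fun k => 2 * k + 1)) := by
      rw [Finset.disjoint_left]
      intro x hx hx'
      simp only [Finset.mem_image] at hx hx'
      obtain ⟨a, -, ha⟩ := hx
      obtain ⟨b, -, hb⟩ := hx'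
      omega
    have hs : E.image (fun k => 2 * k) ∪ E.image (fun k => 2 * k + 1) ⊆
        (Finset.Ico (2 ^ (t + 1)) (2 ^ (t + 1 + 1))).filter (fun k => bad p k) := by
      intro x hx
      simp only [Finset.mem_union, Finset.mem_image, hE, Finset.mem_filter, Finset.mem_Ico] at hx ⊢
      have e1 : 2 ^ (t + 1) = 2 * 2 ^ t := by ring
      have e2 : 2 ^ (t + 1 + 1) = 4 * 2 ^ t := by ring
      rw [e1] at hx ⊢
      rw [e2]
      rcases hx with ⟨a, ⟨⟨h1, h2⟩, h3, h4, h5⟩, rfl⟩ | ⟨a, ⟨⟨h1, h2⟩, h3, h4, h5⟩, rfl⟩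
      · exact ⟨⟨by omega, by omega⟩, h4⟩
      · exact ⟨⟨by omega, by omega⟩, h5⟩
    have hc := Finset.card_le_card hs
    rw [Finset.card_union_of_disjoint hd, ha, hb] at hc
    unfold nB
    omega
  omega

private theorem count_tel (bad : ℤ → ℕ → Prop) (p : ℤ) (T m t : ℕ) (h : t + m = T) :
    nB bad p t * 2 ^ (T - t) ≤
      nB bad p T + ∑ s ∈ Finset.Ico t T, 2 ^ (T - s) * (dB bad p s).card := by
  induction m generalizing t with
  | zero =>
    have : t = T := by omega
    subst this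
    simp
  | succ m ih =>
    have h1 := ih (t + 1) (by omega)
    have h2 := count_step bad p t
    have h3 : 2 ^ (T - t) = 2 * 2 ^ (T - (t + 1)) := by
      rw [show T - t = (T - (t + 1)) + 1 by omega]
      ring
    rw [Finset.sum_eq_sum_Ico_succ_bot (by omega : t < T)]
    have h4 : nB bad p t * 2 ^ (T - t) = (2 * nB bad p t) * 2 ^ (T - (t + 1)) := by
      rw [h3]; ring
    rw [h4]
    calc (2 * nB bad p t) * 2 ^ (T - (t + 1))
        ≤ (nB bad p (t + 1) + 2 * (dB bad p t).card) * 2 ^ (T - (t + 1)) :=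
          Nat.mul_le_mul_right _ h2
      _ = nB bad p (t + 1) * 2 ^ (T - (t + 1)) + 2 ^ (T - t) * (dB bad p t).card := by
          rw [h3]; ring
      _ ≤ _ := by omega

private def gB (bad : ℤ → ℕ → Prop) (T : ℕ) (p : ℤ) (t : ℕ) : Prop :=
  ∀ s, t < s → s ≤ T → nB bad p s * 2 ^ 21 < 2 ^ s

open Classical in
private theorem count_point (bad : ℤ → ℕ → Prop) (T : ℕ) (p : ℤ) (h1 : bad p 1)
    (hT : nB bad p T * 2 ^ 22 < 2 ^ T) :
    2 ^ T ≤ 2 ^ 22 * ∑ t ∈ Finset.range T,
      (if gB bad T p t then 2 ^ (T - t) * (dB bad p t).card else 0) := by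
  have h0 : nB bad p 0 = 1 := by
    unfold nB
    have : (Finset.Ico (2 ^ 0) (2 ^ (0 + 1))).filter (fun k => bad p k) = {1} := by
      ext k
      simp only [Finset.mem_filter, Finset.mem_Ico, Finset.mem_singleton]
      constructor
      · rintro ⟨⟨ha, hb⟩, -⟩
        norm_num at ha hb
        omega
      · rintro rfl
        exact ⟨⟨by norm_num, by norm_num⟩, h1⟩
    rw [this]
    rfl
  -- the last level which is not good
  have hex : ∃ i, i < T ∧ 2 ^ i ≤ nB bad p i * 2 ^ 21 ∧ gB bad T p i := by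
    by_contra hcon
    push Not at hcon
    have key : ∀ m i, i + m = T → nB bad p i * 2 ^ 21 < 2 ^ i ∧ gB bad T p i := by
      intro m
      induction m with
      | zero =>
        intro i hi
        have : i = T := by omega
        subst this
        refine ⟨?_, ?_⟩
        · exact lt_of_le_of_lt (Nat.mul_le_mul_left _
            (Nat.pow_le_pow_right (by norm_num) (by norm_num))) hT
        · intro s hs hs'
          exact absurd hs' (Nat.not_le.2 hs)
      | succ m ih =>
        intro i hi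
        obtain ⟨ha, hb⟩ := ih (i + 1) (by omega)
        have hg : gB bad T p i := by
          intro s hs hs'
          rcases Nat.lt_or_ge (i + 1) s with h | h
          · exact hb s h hs'
          · have : s = i + 1 := by omega
            subst this
            exact ha
        refine ⟨?_, hg⟩
        by_contra hlt
        exact hcon i (by omega) (by omega) hg
    have := (key T 0 (by omega)).1
    rw [h0] at this
    norm_num at this
  obtain ⟨i, hiT, hi, hg⟩ := hex
  have htel := count_tel bad p T (T - i) i (by omega)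
  have hsum : ∑ s ∈ Finset.Ico i T, 2 ^ (T - s) * (dB bad p s).card ≤
      ∑ t ∈ Finset.range T,
        (if gB bad T p t then 2 ^ (T - t) * (dB bad p t).card else 0) := by
    have hsub : Finset.Ico i T ⊆ Finset.range T := by
      intro s hs
      simp only [Finset.mem_Ico, Finset.mem_range] at hs ⊢
      omega
    refine le_trans (le_of_eq ?_) (Finset.sum_le_sum_of_subset hsub)
    refine Finset.sum_congr rfl ?_
    intro s hs
    rw [Finset.mem_Ico] at hs
    have : gB bad T p s := by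
      intro s' hs1 hs2
      exact hg s' (by omega) hs2
    rw [if_pos this]
  have hpow : 2 ^ T = 2 ^ i * 2 ^ (T - i) := by
    rw [← pow_add]
    congr 1
    omega
  have h3 : 2 * 2 ^ T ≤ 2 ^ 22 * (nB bad p i * 2 ^ (T - i)) := by
    calc 2 * 2 ^ T = 2 * (2 ^ i * 2 ^ (T - i)) := by rw [← hpow]
      _ ≤ 2 * ((nB bad p i * 2 ^ 21) * 2 ^ (T - i)) :=
          Nat.mul_le_mul_left _ (Nat.mul_le_mul_right _ hi)
      _ = 2 ^ 22 * (nB bad p i * 2 ^ (T - i)) := by ring
  have h4 : 2 ^ 22 * (nB bad p i * 2 ^ (T - i)) ≤ 2 ^ 22 * (nB bad p T + ∑ t ∈ Finset.range T,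
        (if gB bad T p t then 2 ^ (T - t) * (dB bad p t).card else 0)) :=
    Nat.mul_le_mul_left _ (by omega)
  rw [Nat.mul_add] at h4
  have h5 : 2 ^ 22 * nB bad p T < 2 ^ T := by
    rw [Nat.mul_comm]; exact hT
  omega

/-! ### Module Count -/
open Classical in
theorem counting (P0 : Finset ℤ) (T : ℕ) (bad : ℤ → ℕ → Prop)
    (h1 : ∀ p ∈ P0, bad p 1)
    (hT : ∀ p ∈ P0, ((Finset.Ico (2 ^ T) (2 ^ (T + 1))).filter (fun k => bad p k)).card * 2 ^ 22
      < 2 ^ T)
    (H : ℕ → ℕ)
    (hm : ∀ t < T, ∀ k, Lev t k →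
      (P0.filter (fun p => (∀ s, t < s → s ≤ T →
          ((Finset.Ico (2 ^ s) (2 ^ (s + 1))).filter (fun k => bad p k)).card * 2 ^ 21 < 2 ^ s) ∧
        bad p k ∧ (¬ bad p (2 * k) ∨ ¬ bad p (2 * k + 1)))).card ≤ (2 ^ (20 + t) + 1) * H k) :
    P0.card ≤ 2 ^ 43 * ∑ k ∈ Finset.Ico 1 (2 ^ T), H k := by
  -- sum of the pointwise bounds
  have hA : 2 ^ T * P0.card ≤ 2 ^ 22 * ∑ p ∈ P0, ∑ t ∈ Finset.range T,
      (if gB bad T p t then 2 ^ (T - t) * (dB bad p t).card else 0) := by
    rw [Finset.mul_sum, Nat.mul_comm]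
    calc P0.card * 2 ^ T = ∑ _p ∈ P0, 2 ^ T := by rw [Finset.sum_const, smul_eq_mul]
      _ ≤ _ := Finset.sum_le_sum (fun p hp => count_point bad T p (h1 p hp) (hT p hp))
  -- exchange
  have hB : ∀ t < T, ∑ p ∈ P0, (if gB bad T p t then 2 ^ (T - t) * (dB bad p t).card else 0) ≤
      2 ^ (T + 21) * ∑ k ∈ Finset.Ico (2 ^ t) (2 ^ (t + 1)), H k := by
    intro t ht
    have e1 : ∀ p ∈ P0, (if gB bad T p t then 2 ^ (T - t) * (dB bad p t).card else 0) =
        2 ^ (T - t) * ∑ k ∈ Finset.Ico (2 ^ t) (2 ^ (t + 1)),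
          (if gB bad T p t ∧ bad p k ∧ (¬ bad p (2 * k) ∨ ¬ bad p (2 * k + 1)) then 1 else 0) := by
      intro p _
      by_cases hg : gB bad T p t
      · simp only [hg, if_true, true_and]
        congr 1
        unfold dB
        rw [Finset.card_filter]
      · simp [hg]
    rw [Finset.sum_congr rfl e1, ← Finset.mul_sum, Finset.sum_comm]
    have e2 : ∀ k ∈ Finset.Ico (2 ^ t) (2 ^ (t + 1)),
        ∑ p ∈ P0, (if gB bad T p t ∧ bad p k ∧ (¬ bad p (2 * k) ∨ ¬ bad p (2 * k + 1)) then 1 else 0)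
        ≤ 2 ^ (21 + t) * H k := by
      intro k hk
      rw [Finset.mem_Ico] at hk
      rw [← Finset.card_filter]
      refine le_trans (hm t ht k hk) (Nat.mul_le_mul_right _ ?_)
      have : 2 ^ (21 + t) = 2 ^ (20 + t) + 2 ^ (20 + t) := by ring
      rw [this]
      exact Nat.add_le_add_left Nat.one_le_two_pow _
    calc 2 ^ (T - t) * ∑ k ∈ Finset.Ico (2 ^ t) (2 ^ (t + 1)), ∑ p ∈ P0,
          (if gB bad T p t ∧ bad p k ∧ (¬ bad p (2 * k) ∨ ¬ bad p (2 * k + 1)) then 1 else 0)
        ≤ 2 ^ (T - t) * ∑ k ∈ Finset.Ico (2 ^ t) (2 ^ (t + 1)), 2 ^ (21 + t) * H k :=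
          Nat.mul_le_mul_left _ (Finset.sum_le_sum e2)
      _ = 2 ^ (T + 21) * ∑ k ∈ Finset.Ico (2 ^ t) (2 ^ (t + 1)), H k := by
          rw [← Finset.mul_sum, ← Nat.mul_assoc, ← pow_add]
          congr 2
          omega
  have hC : ∑ t ∈ Finset.range T, ∑ k ∈ Finset.Ico (2 ^ t) (2 ^ (t + 1)), H k =
      ∑ k ∈ Finset.Ico 1 (2 ^ T), H k := by
    clear hA hB hm hT h1
    induction T with
    | zero => simp
    | succ T ih =>
      rw [Finset.sum_range_succ, ih]
      exact Finset.sum_Ico_consecutive _ Nat.one_le_two_pow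
        (Nat.pow_le_pow_right (by norm_num) (Nat.le_succ T))
  rw [Finset.sum_comm] at hA
  have hD : ∑ t ∈ Finset.range T, ∑ p ∈ P0,
      (if gB bad T p t then 2 ^ (T - t) * (dB bad p t).card else 0) ≤
      2 ^ (T + 21) * ∑ k ∈ Finset.Ico 1 (2 ^ T), H k := by
    rw [← hC, Finset.mul_sum]
    exact Finset.sum_le_sum (fun t ht => hB t (Finset.mem_range.1 ht))
  have hE : 2 ^ T * P0.card ≤ 2 ^ T * (2 ^ 43 * ∑ k ∈ Finset.Ico 1 (2 ^ T), H k) := by
    calc 2 ^ T * P0.card ≤ 2 ^ 22 * (2 ^ (T + 21) * ∑ k ∈ Finset.Ico 1 (2 ^ T), H k) :=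
          le_trans hA (Nat.mul_le_mul_left _ hD)
      _ = 2 ^ T * (2 ^ 43 * ∑ k ∈ Finset.Ico 1 (2 ^ T), H k) := by
          rw [pow_add]; ring
  exact Nat.le_of_mul_le_mul_left hE (by positivity)

end ABL
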