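import Mathlib

/-!
# ABL: definitions for the linear lower bound on non-equivalent abelian squares
-/

namespace ABL

/-- second difference of `Y` with step `w` at `u` -/
def F (Y : ℤ → ℤ) (w : ℕ) (u : ℤ) : ℤ := Y u + Y (u + 2 * w) - 2 * Y (u + w)

/-- window sum of first differences with step `w` (equal to `w ^ 2` times the slope at scale `w`) -/
def S (Y : ℤ → ℤ) (w : ℕ) (z : ℤ) : ℤ := ∑ i ∈ Finset.range w, (Y (z + w + i) - Y (z + i))

/-- the steps not divisible by three: `V (2j) = 3j+1`, `V (2j+1) = 3j+2` -/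
def V (k : ℕ) : ℕ := 3 * k / 2 + 1

/-- event of the step `v` at `u` -/
def Ev (Y : ℤ → ℤ) (v : ℕ) (u : ℤ) : Prop :=
  F Y v u = 0 ∨ (F Y v u < 0 ∧ 0 < F Y v (u + 1))

/-- positivity of the index `k` at `p` -/
def Pos (Y : ℤ → ℤ) (p : ℤ) (k : ℕ) : Prop :=
  ∀ u : ℤ, |u - p| ≤ 65536 * (V k : ℤ) → 1 ≤ F Y (V k) u

/-- `k` has level `t` -/
def Lev (t k : ℕ) : Prop := 2 ^ t ≤ k ∧ k < 2 ^ (t + 1)

/-- refinement: every letter `a` is replaced by three letters -/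
def Ref (y : ℤ → ℤ) (u : ℤ) : ℤ := y (u / 3)

/-- the vector `(j, h)` is an abelian square vector of the path of `y` -/
def Sq (A : ℕ) (y : ℤ → ℤ) (j h : ℕ) : Prop :=
  ∃ x h0 : ℤ, 0 ≤ x ∧ x + 2 * j ≤ A ∧ y (x - 1) ≤ h0 ∧ h0 ≤ y x ∧
    y (x + j - 1) ≤ h0 + h ∧ h0 + h ≤ y (x + j) ∧
    y (x + 2 * j - 1) ≤ h0 + 2 * h ∧ h0 + 2 * h ≤ y (x + 2 * j)

/-- what is needed from an event of `V k` at `u` with height `h` -/
def EvData (A : ℕ) (y : ℤ → ℤ) (k : ℕ) (u : ℤ) (h : ℕ) : Prop :=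
  Sq A y ((k + 1) / 2) h ∧
  ∀ v : ℕ, (v = 3 * k + 1 ∨ v = 3 * k + 2) →
    (∃ b : ℤ, u - 1 ≤ b ∧ b ≤ u + 2 ∧ 2 * (h : ℤ) ≤ Ref y (b + v) - Ref y b) ∧
    (∃ b : ℤ, u - 1 ≤ b ∧ b ≤ u + 2 ∧ Ref y (b + v) - Ref y b ≤ 2 * (h : ℤ))

open Classical in
/-- number of indices of level `t` that are not positive at `p` -/
noncomputable def nb (Y : ℤ → ℤ) (p : ℤ) (t : ℕ) : ℕ :=
  ((Finset.Ico (2 ^ t) (2 ^ (t + 1))).filter (fun k => ¬ Pos Y p k)).card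

/-- level `t` is good at `p` -/
def Good (Y : ℤ → ℤ) (p : ℤ) (t : ℕ) : Prop := nb Y p t * 2 ^ 21 < 2 ^ t

/-- all levels `s` with `t < s ≤ T` are good at `p` -/
def GA (Y : ℤ → ℤ) (p : ℤ) (t T : ℕ) : Prop := ∀ s, t < s → s ≤ T → Good Y p s

/-- number of non-equivalent abelian squares of a binary word -/
noncomputable def T (w : List Bool) : ℕ :=
  Set.ncard {p : ℕ × ℕ | ∃ u v : List Bool, u ≠ [] ∧ (u ++ v) <:+: w ∧
    u.count true = v.count true ∧ u.count false = v.count false ∧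
    p = (u.count true, u.count false)}

/-- admissible height functions -/
structure Adm (A B : ℕ) (y : ℤ → ℤ) : Prop where
  mono : Monotone y
  neg : ∀ i : ℤ, i < 0 → y i = 0
  big : ∀ i : ℤ, (A : ℤ) ≤ i → y i = B
  le : B ≤ A

end ABL
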