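import Pool.Agent.ABL.Defs

/-!
# ABL: the event lemma
-/

namespace ABL

theorem Ref_val (y : ℤ → ℤ) (u q : ℤ) (h1 : 3 * q ≤ u) (h2 : u < 3 * q + 3) : Ref y u = y q := by
  unfold Ref
  congr 1
  omega

theorem ev_e0Z (A : ℕ) (y : ℤ → ℤ) (hy : Monotone y) (j : ℕ) (a u : ℤ) (hu : u = 3 * a + 0)
    (h0 : 0 ≤ u) (h1 : u + 1 + 2 * (3 * j + 1) < 3 * A)
    (hF : y (a) + y (a + 2 * j) - 2 * y (a + j) = 0) :
    ∃ h : ℕ, EvData A y (2 * j) u h := by
  have mm : ∀ s t : ℤ, s ≤ t → y s ≤ y t := fun s t h => hy h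
  have n1 := mm (a - 1) a (by omega)
  have n2 := mm a (a + 1) (by omega)
  have n3 := mm a (a + j) (by omega)
  have n4 := mm (a + j) (a + j + 1) (by omega)
  have n4' := mm (a + j + 1) (a + j + 2) (by omega)
  have n5 := mm (a + j) (a + 2 * j) (by omega)
  have n5' := mm (a + j + 1) (a + 2 * j + 1) (by omega)
  have n6 := mm (a + 2 * j) (a + 2 * j + 1) (by omega)
  have n7 := mm (a + 2 * j + 1) (a + 2 * j + 2) (by omega)
  have n8 := mm (a + 2 * j + 2) (a + 2 * j + 3) (by omega)
  obtain ⟨h, hh⟩ : ∃ h : ℕ, (h : ℤ) = y (a + j) - y (a) := ⟨(y (a + j) - y (a)).toNat, Int.toNat_of_nonneg (by omega)⟩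
  have hJ : ((2 * j) + 1) / 2 = j := by omega
  refine ⟨h, ?_, ?_⟩
  · rw [hJ]
    refine ⟨(a + 1), y (a), by omega, by omega, ?_, ?_, ?_, ?_, ?_, ?_⟩
    · exact (mm _ a (by omega)).trans (by omega)
    · exact le_trans (by omega) (mm (a + 1) _ (by omega))
    · exact (mm _ (a + j) (by omega)).trans (by omega)
    · exact le_trans (by omega) (mm (a + j + 1) _ (by omega))
    · exact (mm _ (a + 2 * j) (by omega)).trans (by omega)
    · exact le_trans (by omega) (mm (a + 2 * j + 1) _ (by omega))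
  · intro v hv
    rcases hv with rfl | rfl
    · constructor
      · refine ⟨u + (0), by omega, by omega, ?_⟩
        rw [Ref_val y _ (a + 2 * j) (by omega) (by omega), Ref_val y _ (a) (by omega) (by omega)]
        omega
      · refine ⟨u + (0), by omega, by omega, ?_⟩
        rw [Ref_val y _ (a + 2 * j) (by omega) (by omega), Ref_val y _ (a) (by omega) (by omega)]
        omega
    · constructor
      · refine ⟨u + (0), by omega, by omega, ?_⟩
        rw [Ref_val y _ (a + 2 * j) (by omega) (by omega), Ref_val y _ (a) (by omega) (by omega)]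
        omega
      · refine ⟨u + (0), by omega, by omega, ?_⟩
        rw [Ref_val y _ (a + 2 * j) (by omega) (by omega), Ref_val y _ (a) (by omega) (by omega)]
        omega

theorem ev_e0M (A : ℕ) (y : ℤ → ℤ) (hy : Monotone y) (j : ℕ) (a u : ℤ) (hu : u = 3 * a + 0)
    (h0 : 0 ≤ u) (h1 : u + 1 + 2 * (3 * j + 1) < 3 * A)
    (hF : y (a) + y (a + 2 * j) - 2 * y (a + j) < 0)
    (hF1 : 0 < y (a) + y (a + 2 * j + 1) - 2 * y (a + j)) :
    ∃ h : ℕ, EvData A y (2 * j) u h := by
  have mm : ∀ s t : ℤ, s ≤ t → y s ≤ y t := fun s t h => hy h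
  have n1 := mm (a - 1) a (by omega)
  have n2 := mm a (a + 1) (by omega)
  have n3 := mm a (a + j) (by omega)
  have n4 := mm (a + j) (a + j + 1) (by omega)
  have n4' := mm (a + j + 1) (a + j + 2) (by omega)
  have n5 := mm (a + j) (a + 2 * j) (by omega)
  have n5' := mm (a + j + 1) (a + 2 * j + 1) (by omega)
  have n6 := mm (a + 2 * j) (a + 2 * j + 1) (by omega)
  have n7 := mm (a + 2 * j + 1) (a + 2 * j + 2) (by omega)
  have n8 := mm (a + 2 * j + 2) (a + 2 * j + 3) (by omega)
  obtain ⟨h, hh⟩ : ∃ h : ℕ, (h : ℤ) = y (a + j) - y (a) := ⟨(y (a + j) - y (a)).toNat, Int.toNat_of_nonneg (by omega)⟩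
  have hJ : ((2 * j) + 1) / 2 = j := by omega
  refine ⟨h, ?_, ?_⟩
  · rw [hJ]
    refine ⟨(a + 1), y (a), by omega, by omega, ?_, ?_, ?_, ?_, ?_, ?_⟩
    · exact (mm _ a (by omega)).trans (by omega)
    · exact le_trans (by omega) (mm (a + 1) _ (by omega))
    · exact (mm _ (a + j) (by omega)).trans (by omega)
    · exact le_trans (by omega) (mm (a + j + 1) _ (by omega))
    · exact (mm _ (a + 2 * j) (by omega)).trans (by omega)
    · exact le_trans (by omega) (mm (a + 2 * j + 1) _ (by omega))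
  · intro v hv
    rcases hv with rfl | rfl
    · constructor
      · refine ⟨u + (2), by omega, by omega, ?_⟩
        rw [Ref_val y _ (a + 2 * j + 1) (by omega) (by omega), Ref_val y _ (a) (by omega) (by omega)]
        omega
      · refine ⟨u + (0), by omega, by omega, ?_⟩
        rw [Ref_val y _ (a + 2 * j) (by omega) (by omega), Ref_val y _ (a) (by omega) (by omega)]
        omega
    · constructor
      · refine ⟨u + (1), by omega, by omega, ?_⟩
        rw [Ref_val y _ (a + 2 * j + 1) (by omega) (by omega), Ref_val y _ (a) (by omega) (by omega)]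
        omega
      · refine ⟨u + (0), by omega, by omega, ?_⟩
        rw [Ref_val y _ (a + 2 * j) (by omega) (by omega), Ref_val y _ (a) (by omega) (by omega)]
        omega

theorem ev_e1Z (A : ℕ) (y : ℤ → ℤ) (hy : Monotone y) (j : ℕ) (a u : ℤ) (hu : u = 3 * a + 1)
    (h0 : 0 ≤ u) (h1 : u + 1 + 2 * (3 * j + 1) < 3 * A)
    (hF : y (a) + y (a + 2 * j + 1) - 2 * y (a + j) = 0) :
    ∃ h : ℕ, EvData A y (2 * j) u h := by
  have mm : ∀ s t : ℤ, s ≤ t → y s ≤ y t := fun s t h => hy h
  have n1 := mm (a - 1) a (by omega)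
  have n2 := mm a (a + 1) (by omega)
  have n3 := mm a (a + j) (by omega)
  have n4 := mm (a + j) (a + j + 1) (by omega)
  have n4' := mm (a + j + 1) (a + j + 2) (by omega)
  have n5 := mm (a + j) (a + 2 * j) (by omega)
  have n5' := mm (a + j + 1) (a + 2 * j + 1) (by omega)
  have n6 := mm (a + 2 * j) (a + 2 * j + 1) (by omega)
  have n7 := mm (a + 2 * j + 1) (a + 2 * j + 2) (by omega)
  have n8 := mm (a + 2 * j + 2) (a + 2 * j + 3) (by omega)
  obtain ⟨h, hh⟩ : ∃ h : ℕ, (h : ℤ) = y (a + j) - y (a) := ⟨(y (a + j) - y (a)).toNat, Int.toNat_of_nonneg (by omega)⟩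
  have hJ : ((2 * j) + 1) / 2 = j := by omega
  refine ⟨h, ?_, ?_⟩
  · rw [hJ]
    refine ⟨(a + 1), y (a), by omega, by omega, ?_, ?_, ?_, ?_, ?_, ?_⟩
    · exact (mm _ a (by omega)).trans (by omega)
    · exact le_trans (by omega) (mm (a + 1) _ (by omega))
    · exact (mm _ (a + j) (by omega)).trans (by omega)
    · exact le_trans (by omega) (mm (a + j + 1) _ (by omega))
    · exact (mm _ (a + 2 * j) (by omega)).trans (by omega)
    · exact le_trans (by omega) (mm (a + 2 * j + 1) _ (by omega))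
  · intro v hv
    rcases hv with rfl | rfl
    · constructor
      · refine ⟨u + (1), by omega, by omega, ?_⟩
        rw [Ref_val y _ (a + 2 * j + 1) (by omega) (by omega), Ref_val y _ (a) (by omega) (by omega)]
        omega
      · refine ⟨u + (0), by omega, by omega, ?_⟩
        rw [Ref_val y _ (a + 2 * j) (by omega) (by omega), Ref_val y _ (a) (by omega) (by omega)]
        omega
    · constructor
      · refine ⟨u + (0), by omega, by omega, ?_⟩
        rw [Ref_val y _ (a + 2 * j + 1) (by omega) (by omega), Ref_val y _ (a) (by omega) (by omega)]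
        omega
      · refine ⟨u + (0), by omega, by omega, ?_⟩
        rw [Ref_val y _ (a + 2 * j + 1) (by omega) (by omega), Ref_val y _ (a) (by omega) (by omega)]
        omega

theorem ev_e2Z (A : ℕ) (y : ℤ → ℤ) (hy : Monotone y) (j : ℕ) (a u : ℤ) (hu : u = 3 * a + 2)
    (h0 : 0 ≤ u) (h1 : u + 1 + 2 * (3 * j + 1) < 3 * A)
    (hF : y (a) + y (a + 2 * j + 1) - 2 * y (a + j + 1) = 0) :
    ∃ h : ℕ, EvData A y (2 * j) u h := by
  have mm : ∀ s t : ℤ, s ≤ t → y s ≤ y t := fun s t h => hy h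
  have n1 := mm (a - 1) a (by omega)
  have n2 := mm a (a + 1) (by omega)
  have n3 := mm a (a + j) (by omega)
  have n4 := mm (a + j) (a + j + 1) (by omega)
  have n4' := mm (a + j + 1) (a + j + 2) (by omega)
  have n5 := mm (a + j) (a + 2 * j) (by omega)
  have n5' := mm (a + j + 1) (a + 2 * j + 1) (by omega)
  have n6 := mm (a + 2 * j) (a + 2 * j + 1) (by omega)
  have n7 := mm (a + 2 * j + 1) (a + 2 * j + 2) (by omega)
  have n8 := mm (a + 2 * j + 2) (a + 2 * j + 3) (by omega)
  obtain ⟨h, hh⟩ : ∃ h : ℕ, (h : ℤ) = y (a + j + 1) - y (a) := ⟨(y (a + j + 1) - y (a)).toNat, Int.toNat_of_nonneg (by omega)⟩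
  have hJ : ((2 * j) + 1) / 2 = j := by omega
  refine ⟨h, ?_, ?_⟩
  · rw [hJ]
    refine ⟨(a + 1), y (a), by omega, by omega, ?_, ?_, ?_, ?_, ?_, ?_⟩
    · exact (mm _ a (by omega)).trans (by omega)
    · exact le_trans (by omega) (mm (a + 1) _ (by omega))
    · exact (mm _ (a + j) (by omega)).trans (by omega)
    · exact le_trans (by omega) (mm (a + j + 1) _ (by omega))
    · exact (mm _ (a + 2 * j) (by omega)).trans (by omega)
    · exact le_trans (by omega) (mm (a + 2 * j + 1) _ (by omega))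
  · intro v hv
    rcases hv with rfl | rfl
    · constructor
      · refine ⟨u + (0), by omega, by omega, ?_⟩
        rw [Ref_val y _ (a + 2 * j + 1) (by omega) (by omega), Ref_val y _ (a) (by omega) (by omega)]
        omega
      · refine ⟨u + (0), by omega, by omega, ?_⟩
        rw [Ref_val y _ (a + 2 * j + 1) (by omega) (by omega), Ref_val y _ (a) (by omega) (by omega)]
        omega
    · constructor
      · refine ⟨u + (0), by omega, by omega, ?_⟩
        rw [Ref_val y _ (a + 2 * j + 1) (by omega) (by omega), Ref_val y _ (a) (by omega) (by omega)]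
        omega
      · refine ⟨u + (0), by omega, by omega, ?_⟩
        rw [Ref_val y _ (a + 2 * j + 1) (by omega) (by omega), Ref_val y _ (a) (by omega) (by omega)]
        omega

theorem ev_e2M (A : ℕ) (y : ℤ → ℤ) (hy : Monotone y) (j : ℕ) (a u : ℤ) (hu : u = 3 * a + 2)
    (h0 : 0 ≤ u) (h1 : u + 1 + 2 * (3 * j + 1) < 3 * A)
    (hF : y (a) + y (a + 2 * j + 1) - 2 * y (a + j + 1) < 0)
    (hF1 : 0 < y (a + 1) + y (a + 2 * j + 1) - 2 * y (a + j + 1)) :
    ∃ h : ℕ, EvData A y (2 * j) u h := by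
  have mm : ∀ s t : ℤ, s ≤ t → y s ≤ y t := fun s t h => hy h
  have n1 := mm (a - 1) a (by omega)
  have n2 := mm a (a + 1) (by omega)
  have n3 := mm a (a + j) (by omega)
  have n4 := mm (a + j) (a + j + 1) (by omega)
  have n4' := mm (a + j + 1) (a + j + 2) (by omega)
  have n5 := mm (a + j) (a + 2 * j) (by omega)
  have n5' := mm (a + j + 1) (a + 2 * j + 1) (by omega)
  have n6 := mm (a + 2 * j) (a + 2 * j + 1) (by omega)
  have n7 := mm (a + 2 * j + 1) (a + 2 * j + 2) (by omega)
  have n8 := mm (a + 2 * j + 2) (a + 2 * j + 3) (by omega)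
  obtain ⟨h, hh⟩ : ∃ h : ℕ, (h : ℤ) = y (a + 2 * j + 1) - y (a + j + 1) := ⟨(y (a + 2 * j + 1) - y (a + j + 1)).toNat, Int.toNat_of_nonneg (by omega)⟩
  have hJ : ((2 * j) + 1) / 2 = j := by omega
  refine ⟨h, ?_, ?_⟩
  · rw [hJ]
    refine ⟨(a + 1), 2 * y (a + j + 1) - y (a + 2 * j + 1), by omega, by omega, ?_, ?_, ?_, ?_, ?_, ?_⟩
    · exact (mm _ a (by omega)).trans (by omega)
    · exact le_trans (by omega) (mm (a + 1) _ (by omega))
    · exact (mm _ (a + j) (by omega)).trans (by omega)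
    · exact le_trans (by omega) (mm (a + j + 1) _ (by omega))
    · exact (mm _ (a + 2 * j) (by omega)).trans (by omega)
    · exact le_trans (by omega) (mm (a + 2 * j + 1) _ (by omega))
  · intro v hv
    rcases hv with rfl | rfl
    · constructor
      · refine ⟨u + (0), by omega, by omega, ?_⟩
        rw [Ref_val y _ (a + 2 * j + 1) (by omega) (by omega), Ref_val y _ (a) (by omega) (by omega)]
        omega
      · refine ⟨u + (1), by omega, by omega, ?_⟩
        rw [Ref_val y _ (a + 2 * j + 1) (by omega) (by omega), Ref_val y _ (a + 1) (by omega) (by omega)]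
        omega
    · constructor
      · refine ⟨u + (0), by omega, by omega, ?_⟩
        rw [Ref_val y _ (a + 2 * j + 1) (by omega) (by omega), Ref_val y _ (a) (by omega) (by omega)]
        omega
      · refine ⟨u + (1), by omega, by omega, ?_⟩
        rw [Ref_val y _ (a + 2 * j + 1) (by omega) (by omega), Ref_val y _ (a + 1) (by omega) (by omega)]
        omega

theorem ev_o0Z (A : ℕ) (y : ℤ → ℤ) (hy : Monotone y) (j : ℕ) (a u : ℤ) (hu : u = 3 * a + 0)
    (h0 : 0 ≤ u) (h1 : u + 1 + 2 * (3 * j + 2) < 3 * A)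
    (hF : y (a) + y (a + 2 * j + 1) - 2 * y (a + j) = 0) :
    ∃ h : ℕ, EvData A y (2 * j + 1) u h := by
  have mm : ∀ s t : ℤ, s ≤ t → y s ≤ y t := fun s t h => hy h
  have n1 := mm (a - 1) a (by omega)
  have n2 := mm a (a + 1) (by omega)
  have n3 := mm a (a + j) (by omega)
  have n4 := mm (a + j) (a + j + 1) (by omega)
  have n4' := mm (a + j + 1) (a + j + 2) (by omega)
  have n5 := mm (a + j) (a + 2 * j) (by omega)
  have n5' := mm (a + j + 1) (a + 2 * j + 1) (by omega)
  have n6 := mm (a + 2 * j) (a + 2 * j + 1) (by omega)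
  have n7 := mm (a + 2 * j + 1) (a + 2 * j + 2) (by omega)
  have n8 := mm (a + 2 * j + 2) (a + 2 * j + 3) (by omega)
  obtain ⟨h, hh⟩ : ∃ h : ℕ, (h : ℤ) = y (a + j) - y (a) := ⟨(y (a + j) - y (a)).toNat, Int.toNat_of_nonneg (by omega)⟩
  have hJ : ((2 * j + 1) + 1) / 2 = (j + 1) := by omega
  refine ⟨h, ?_, ?_⟩
  · rw [hJ]
    refine ⟨a, y (a), by omega, by omega, ?_, ?_, ?_, ?_, ?_, ?_⟩
    · exact (mm _ (a - 1) (by omega)).trans (by omega)
    · exact le_trans (by omega) (mm a _ (by omega))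
    · exact (mm _ (a + j) (by omega)).trans (by omega)
    · exact le_trans (by omega) (mm (a + j + 1) _ (by omega))
    · exact (mm _ (a + 2 * j + 1) (by omega)).trans (by omega)
    · exact le_trans (by omega) (mm (a + 2 * j + 2) _ (by omega))
  · intro v hv
    rcases hv with rfl | rfl
    · constructor
      · refine ⟨u + (0), by omega, by omega, ?_⟩
        rw [Ref_val y _ (a + 2 * j + 1) (by omega) (by omega), Ref_val y _ (a) (by omega) (by omega)]
        omega
      · refine ⟨u + (0), by omega, by omega, ?_⟩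
        rw [Ref_val y _ (a + 2 * j + 1) (by omega) (by omega), Ref_val y _ (a) (by omega) (by omega)]
        omega
    · constructor
      · refine ⟨u + (0), by omega, by omega, ?_⟩
        rw [Ref_val y _ (a + 2 * j + 1) (by omega) (by omega), Ref_val y _ (a) (by omega) (by omega)]
        omega
      · refine ⟨u + (0), by omega, by omega, ?_⟩
        rw [Ref_val y _ (a + 2 * j + 1) (by omega) (by omega), Ref_val y _ (a) (by omega) (by omega)]
        omega

theorem ev_o1Z (A : ℕ) (y : ℤ → ℤ) (hy : Monotone y) (j : ℕ) (a u : ℤ) (hu : u = 3 * a + 1)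
    (h0 : 0 ≤ u) (h1 : u + 1 + 2 * (3 * j + 2) < 3 * A)
    (hF : y (a) + y (a + 2 * j + 1) - 2 * y (a + j + 1) = 0) :
    ∃ h : ℕ, EvData A y (2 * j + 1) u h := by
  have mm : ∀ s t : ℤ, s ≤ t → y s ≤ y t := fun s t h => hy h
  have n1 := mm (a - 1) a (by omega)
  have n2 := mm a (a + 1) (by omega)
  have n3 := mm a (a + j) (by omega)
  have n4 := mm (a + j) (a + j + 1) (by omega)
  have n4' := mm (a + j + 1) (a + j + 2) (by omega)
  have n5 := mm (a + j) (a + 2 * j) (by omega)
  have n5' := mm (a + j + 1) (a + 2 * j + 1) (by omega)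
  have n6 := mm (a + 2 * j) (a + 2 * j + 1) (by omega)
  have n7 := mm (a + 2 * j + 1) (a + 2 * j + 2) (by omega)
  have n8 := mm (a + 2 * j + 2) (a + 2 * j + 3) (by omega)
  obtain ⟨h, hh⟩ : ∃ h : ℕ, (h : ℤ) = y (a + j + 1) - y (a) := ⟨(y (a + j + 1) - y (a)).toNat, Int.toNat_of_nonneg (by omega)⟩
  have hJ : ((2 * j + 1) + 1) / 2 = (j + 1) := by omega
  refine ⟨h, ?_, ?_⟩
  · rw [hJ]
    refine ⟨a, y (a), by omega, by omega, ?_, ?_, ?_, ?_, ?_, ?_⟩
    · exact (mm _ (a - 1) (by omega)).trans (by omega)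
    · exact le_trans (by omega) (mm a _ (by omega))
    · exact (mm _ (a + j) (by omega)).trans (by omega)
    · exact le_trans (by omega) (mm (a + j + 1) _ (by omega))
    · exact (mm _ (a + 2 * j + 1) (by omega)).trans (by omega)
    · exact le_trans (by omega) (mm (a + 2 * j + 2) _ (by omega))
  · intro v hv
    rcases hv with rfl | rfl
    · constructor
      · refine ⟨u + (0), by omega, by omega, ?_⟩
        rw [Ref_val y _ (a + 2 * j + 1) (by omega) (by omega), Ref_val y _ (a) (by omega) (by omega)]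
        omega
      · refine ⟨u + (0), by omega, by omega, ?_⟩
        rw [Ref_val y _ (a + 2 * j + 1) (by omega) (by omega), Ref_val y _ (a) (by omega) (by omega)]
        omega
    · constructor
      · refine ⟨u + (0), by omega, by omega, ?_⟩
        rw [Ref_val y _ (a + 2 * j + 2) (by omega) (by omega), Ref_val y _ (a) (by omega) (by omega)]
        omega
      · refine ⟨u + (-1), by omega, by omega, ?_⟩
        rw [Ref_val y _ (a + 2 * j + 1) (by omega) (by omega), Ref_val y _ (a) (by omega) (by omega)]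
        omega

theorem ev_o1M (A : ℕ) (y : ℤ → ℤ) (hy : Monotone y) (j : ℕ) (a u : ℤ) (hu : u = 3 * a + 1)
    (h0 : 0 ≤ u) (h1 : u + 1 + 2 * (3 * j + 2) < 3 * A)
    (hF : y (a) + y (a + 2 * j + 1) - 2 * y (a + j + 1) < 0)
    (hF1 : 0 < y (a) + y (a + 2 * j + 2) - 2 * y (a + j + 1)) :
    ∃ h : ℕ, EvData A y (2 * j + 1) u h := by
  have mm : ∀ s t : ℤ, s ≤ t → y s ≤ y t := fun s t h => hy h
  have n1 := mm (a - 1) a (by omega)
  have n2 := mm a (a + 1) (by omega)
  have n3 := mm a (a + j) (by omega)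
  have n4 := mm (a + j) (a + j + 1) (by omega)
  have n4' := mm (a + j + 1) (a + j + 2) (by omega)
  have n5 := mm (a + j) (a + 2 * j) (by omega)
  have n5' := mm (a + j + 1) (a + 2 * j + 1) (by omega)
  have n6 := mm (a + 2 * j) (a + 2 * j + 1) (by omega)
  have n7 := mm (a + 2 * j + 1) (a + 2 * j + 2) (by omega)
  have n8 := mm (a + 2 * j + 2) (a + 2 * j + 3) (by omega)
  obtain ⟨h, hh⟩ : ∃ h : ℕ, (h : ℤ) = y (a + j + 1) - y (a) := ⟨(y (a + j + 1) - y (a)).toNat, Int.toNat_of_nonneg (by omega)⟩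
  have hJ : ((2 * j + 1) + 1) / 2 = (j + 1) := by omega
  refine ⟨h, ?_, ?_⟩
  · rw [hJ]
    refine ⟨a, y (a), by omega, by omega, ?_, ?_, ?_, ?_, ?_, ?_⟩
    · exact (mm _ (a - 1) (by omega)).trans (by omega)
    · exact le_trans (by omega) (mm a _ (by omega))
    · exact (mm _ (a + j) (by omega)).trans (by omega)
    · exact le_trans (by omega) (mm (a + j + 1) _ (by omega))
    · exact (mm _ (a + 2 * j + 1) (by omega)).trans (by omega)
    · exact le_trans (by omega) (mm (a + 2 * j + 2) _ (by omega))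
  · intro v hv
    rcases hv with rfl | rfl
    · constructor
      · refine ⟨u + (1), by omega, by omega, ?_⟩
        rw [Ref_val y _ (a + 2 * j + 2) (by omega) (by omega), Ref_val y _ (a) (by omega) (by omega)]
        omega
      · refine ⟨u + (0), by omega, by omega, ?_⟩
        rw [Ref_val y _ (a + 2 * j + 1) (by omega) (by omega), Ref_val y _ (a) (by omega) (by omega)]
        omega
    · constructor
      · refine ⟨u + (0), by omega, by omega, ?_⟩
        rw [Ref_val y _ (a + 2 * j + 2) (by omega) (by omega), Ref_val y _ (a) (by omega) (by omega)]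
        omega
      · refine ⟨u + (-1), by omega, by omega, ?_⟩
        rw [Ref_val y _ (a + 2 * j + 1) (by omega) (by omega), Ref_val y _ (a) (by omega) (by omega)]
        omega

theorem ev_o2Z (A : ℕ) (y : ℤ → ℤ) (hy : Monotone y) (j : ℕ) (a u : ℤ) (hu : u = 3 * a + 2)
    (h0 : 0 ≤ u) (h1 : u + 1 + 2 * (3 * j + 2) < 3 * A)
    (hF : y (a) + y (a + 2 * j + 2) - 2 * y (a + j + 1) = 0) :
    ∃ h : ℕ, EvData A y (2 * j + 1) u h := by
  have mm : ∀ s t : ℤ, s ≤ t → y s ≤ y t := fun s t h => hy h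
  have n1 := mm (a - 1) a (by omega)
  have n2 := mm a (a + 1) (by omega)
  have n3 := mm a (a + j) (by omega)
  have n4 := mm (a + j) (a + j + 1) (by omega)
  have n4' := mm (a + j + 1) (a + j + 2) (by omega)
  have n5 := mm (a + j) (a + 2 * j) (by omega)
  have n5' := mm (a + j + 1) (a + 2 * j + 1) (by omega)
  have n6 := mm (a + 2 * j) (a + 2 * j + 1) (by omega)
  have n7 := mm (a + 2 * j + 1) (a + 2 * j + 2) (by omega)
  have n8 := mm (a + 2 * j + 2) (a + 2 * j + 3) (by omega)
  obtain ⟨h, hh⟩ : ∃ h : ℕ, (h : ℤ) = y (a + j + 1) - y (a) := ⟨(y (a + j + 1) - y (a)).toNat, Int.toNat_of_nonneg (by omega)⟩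
  have hJ : ((2 * j + 1) + 1) / 2 = (j + 1) := by omega
  refine ⟨h, ?_, ?_⟩
  · rw [hJ]
    refine ⟨a, y (a), by omega, by omega, ?_, ?_, ?_, ?_, ?_, ?_⟩
    · exact (mm _ (a - 1) (by omega)).trans (by omega)
    · exact le_trans (by omega) (mm a _ (by omega))
    · exact (mm _ (a + j) (by omega)).trans (by omega)
    · exact le_trans (by omega) (mm (a + j + 1) _ (by omega))
    · exact (mm _ (a + 2 * j + 1) (by omega)).trans (by omega)
    · exact le_trans (by omega) (mm (a + 2 * j + 2) _ (by omega))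
  · intro v hv
    rcases hv with rfl | rfl
    · constructor
      · refine ⟨u + (0), by omega, by omega, ?_⟩
        rw [Ref_val y _ (a + 2 * j + 2) (by omega) (by omega), Ref_val y _ (a) (by omega) (by omega)]
        omega
      · refine ⟨u + (0), by omega, by omega, ?_⟩
        rw [Ref_val y _ (a + 2 * j + 2) (by omega) (by omega), Ref_val y _ (a) (by omega) (by omega)]
        omega
    · constructor
      · refine ⟨u + (0), by omega, by omega, ?_⟩
        rw [Ref_val y _ (a + 2 * j + 2) (by omega) (by omega), Ref_val y _ (a) (by omega) (by omega)]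
        omega
      · refine ⟨u + (0), by omega, by omega, ?_⟩
        rw [Ref_val y _ (a + 2 * j + 2) (by omega) (by omega), Ref_val y _ (a) (by omega) (by omega)]
        omega

theorem ev_o2M (A : ℕ) (y : ℤ → ℤ) (hy : Monotone y) (j : ℕ) (a u : ℤ) (hu : u = 3 * a + 2)
    (h0 : 0 ≤ u) (h1 : u + 1 + 2 * (3 * j + 2) < 3 * A)
    (hF : y (a) + y (a + 2 * j + 2) - 2 * y (a + j + 1) < 0)
    (hF1 : 0 < y (a + 1) + y (a + 2 * j + 2) - 2 * y (a + j + 1)) :
    ∃ h : ℕ, EvData A y (2 * j + 1) u h := by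
  have mm : ∀ s t : ℤ, s ≤ t → y s ≤ y t := fun s t h => hy h
  have n1 := mm (a - 1) a (by omega)
  have n2 := mm a (a + 1) (by omega)
  have n3 := mm a (a + j) (by omega)
  have n4 := mm (a + j) (a + j + 1) (by omega)
  have n4' := mm (a + j + 1) (a + j + 2) (by omega)
  have n5 := mm (a + j) (a + 2 * j) (by omega)
  have n5' := mm (a + j + 1) (a + 2 * j + 1) (by omega)
  have n6 := mm (a + 2 * j) (a + 2 * j + 1) (by omega)
  have n7 := mm (a + 2 * j + 1) (a + 2 * j + 2) (by omega)
  have n8 := mm (a + 2 * j + 2) (a + 2 * j + 3) (by omega)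
  obtain ⟨h, hh⟩ : ∃ h : ℕ, (h : ℤ) = y (a + 2 * j + 2) - y (a + j + 1) := ⟨(y (a + 2 * j + 2) - y (a + j + 1)).toNat, Int.toNat_of_nonneg (by omega)⟩
  have hJ : ((2 * j + 1) + 1) / 2 = (j + 1) := by omega
  refine ⟨h, ?_, ?_⟩
  · rw [hJ]
    refine ⟨(a + 1), 2 * y (a + j + 1) - y (a + 2 * j + 2), by omega, by omega, ?_, ?_, ?_, ?_, ?_, ?_⟩
    · exact (mm _ a (by omega)).trans (by omega)
    · exact le_trans (by omega) (mm (a + 1) _ (by omega))
    · exact (mm _ (a + j + 1) (by omega)).trans (by omega)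
    · exact le_trans (by omega) (mm (a + j + 2) _ (by omega))
    · exact (mm _ (a + 2 * j + 2) (by omega)).trans (by omega)
    · exact le_trans (by omega) (mm (a + 2 * j + 3) _ (by omega))
  · intro v hv
    rcases hv with rfl | rfl
    · constructor
      · refine ⟨u + (0), by omega, by omega, ?_⟩
        rw [Ref_val y _ (a + 2 * j + 2) (by omega) (by omega), Ref_val y _ (a) (by omega) (by omega)]
        omega
      · refine ⟨u + (1), by omega, by omega, ?_⟩
        rw [Ref_val y _ (a + 2 * j + 2) (by omega) (by omega), Ref_val y _ (a + 1) (by omega) (by omega)]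
        omega
    · constructor
      · refine ⟨u + (0), by omega, by omega, ?_⟩
        rw [Ref_val y _ (a + 2 * j + 2) (by omega) (by omega), Ref_val y _ (a) (by omega) (by omega)]
        omega
      · refine ⟨u + (1), by omega, by omega, ?_⟩
        rw [Ref_val y _ (a + 2 * j + 2) (by omega) (by omega), Ref_val y _ (a + 1) (by omega) (by omega)]
        omega

theorem ev_data (A : ℕ) (y : ℤ → ℤ) (hy : Monotone y) (k : ℕ) (hk : 1 ≤ k) (u : ℤ)
    (h0 : 0 ≤ u) (h1 : u + 1 + 2 * V k < 3 * A) (he : Ev (Ref y) (V k) u) :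
    ∃ h : ℕ, EvData A y k u h := by
  have mm : ∀ s t : ℤ, s ≤ t → y s ≤ y t := fun s t h => hy h
  obtain ⟨a, r, hr, hu⟩ : ∃ a r : ℤ, (r = 0 ∨ r = 1 ∨ r = 2) ∧ u = 3 * a + r :=
    ⟨u / 3, u % 3, by omega, by omega⟩
  rcases Nat.even_or_odd' k with ⟨j, rfl | rfl⟩
  · have hV : V (2 * j) = 3 * j + 1 := by unfold V; omega
    rw [hV] at h1 he
    push_cast at h1
    unfold Ev F at he
    push_cast at he
    rcases hr with rfl | rfl | rfl
    · rw [Ref_val y u a (by omega) (by omega),
        Ref_val y (u + 2 * (3 * (j : ℤ) + 1)) (a + 2 * j) (by omega) (by omega),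
        Ref_val y (u + (3 * (j : ℤ) + 1)) (a + j) (by omega) (by omega),
        Ref_val y (u + 1) a (by omega) (by omega),
        Ref_val y (u + 1 + 2 * (3 * (j : ℤ) + 1)) (a + 2 * j + 1) (by omega) (by omega),
        Ref_val y (u + 1 + (3 * (j : ℤ) + 1)) (a + j) (by omega) (by omega)] at he
      rcases he with he | ⟨he, he'⟩
      · exact ev_e0Z A y hy j a u hu h0 h1 he
      · exact ev_e0M A y hy j a u hu h0 h1 he he'
    · rw [Ref_val y u a (by omega) (by omega),
        Ref_val y (u + 2 * (3 * (j : ℤ) + 1)) (a + 2 * j + 1) (by omega) (by omega),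
        Ref_val y (u + (3 * (j : ℤ) + 1)) (a + j) (by omega) (by omega),
        Ref_val y (u + 1) a (by omega) (by omega),
        Ref_val y (u + 1 + 2 * (3 * (j : ℤ) + 1)) (a + 2 * j + 1) (by omega) (by omega),
        Ref_val y (u + 1 + (3 * (j : ℤ) + 1)) (a + j + 1) (by omega) (by omega)] at he
      rcases he with he | ⟨he, he'⟩
      · exact ev_e1Z A y hy j a u hu h0 h1 he
      · have := mm (a + j) (a + j + 1) (by omega)
        omega
    · rw [Ref_val y u a (by omega) (by omega),
        Ref_val y (u + 2 * (3 * (j : ℤ) + 1)) (a + 2 * j + 1) (by omega) (by omega),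
        Ref_val y (u + (3 * (j : ℤ) + 1)) (a + j + 1) (by omega) (by omega),
        Ref_val y (u + 1) (a + 1) (by omega) (by omega),
        Ref_val y (u + 1 + 2 * (3 * (j : ℤ) + 1)) (a + 2 * j + 1) (by omega) (by omega),
        Ref_val y (u + 1 + (3 * (j : ℤ) + 1)) (a + j + 1) (by omega) (by omega)] at he
      rcases he with he | ⟨he, he'⟩
      · exact ev_e2Z A y hy j a u hu h0 h1 he
      · exact ev_e2M A y hy j a u hu h0 h1 he he'
  · have hV : V (2 * j + 1) = 3 * j + 2 := by unfold V; omega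
    rw [hV] at h1 he
    push_cast at h1
    unfold Ev F at he
    push_cast at he
    rcases hr with rfl | rfl | rfl
    · rw [Ref_val y u a (by omega) (by omega),
        Ref_val y (u + 2 * (3 * (j : ℤ) + 2)) (a + 2 * j + 1) (by omega) (by omega),
        Ref_val y (u + (3 * (j : ℤ) + 2)) (a + j) (by omega) (by omega),
        Ref_val y (u + 1) a (by omega) (by omega),
        Ref_val y (u + 1 + 2 * (3 * (j : ℤ) + 2)) (a + 2 * j + 1) (by omega) (by omega),
        Ref_val y (u + 1 + (3 * (j : ℤ) + 2)) (a + j + 1) (by omega) (by omega)] at he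
      rcases he with he | ⟨he, he'⟩
      · exact ev_o0Z A y hy j a u hu h0 h1 he
      · have := mm (a + j) (a + j + 1) (by omega)
        omega
    · rw [Ref_val y u a (by omega) (by omega),
        Ref_val y (u + 2 * (3 * (j : ℤ) + 2)) (a + 2 * j + 1) (by omega) (by omega),
        Ref_val y (u + (3 * (j : ℤ) + 2)) (a + j + 1) (by omega) (by omega),
        Ref_val y (u + 1) a (by omega) (by omega),
        Ref_val y (u + 1 + 2 * (3 * (j : ℤ) + 2)) (a + 2 * j + 2) (by omega) (by omega),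
        Ref_val y (u + 1 + (3 * (j : ℤ) + 2)) (a + j + 1) (by omega) (by omega)] at he
      rcases he with he | ⟨he, he'⟩
      · exact ev_o1Z A y hy j a u hu h0 h1 he
      · exact ev_o1M A y hy j a u hu h0 h1 he he'
    · rw [Ref_val y u a (by omega) (by omega),
        Ref_val y (u + 2 * (3 * (j : ℤ) + 2)) (a + 2 * j + 2) (by omega) (by omega),
        Ref_val y (u + (3 * (j : ℤ) + 2)) (a + j + 1) (by omega) (by omega),
        Ref_val y (u + 1) (a + 1) (by omega) (by omega),
        Ref_val y (u + 1 + 2 * (3 * (j : ℤ) + 2)) (a + 2 * j + 2) (by omega) (by omega),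
        Ref_val y (u + 1 + (3 * (j : ℤ) + 2)) (a + j + 1) (by omega) (by omega)] at he
      rcases he with he | ⟨he, he'⟩
      · exact ev_o2Z A y hy j a u hu h0 h1 he
      · exact ev_o2M A y hy j a u hu h0 h1 he he'

theorem not_pos_one (y : ℤ → ℤ) (hy : Monotone y) (p : ℤ) : ¬ Pos (Ref y) p 1 := by
  intro h
  have hV : V 1 = 2 := rfl
  have h1 := h (3 * (p / 3) + 1) (by rw [hV, abs_le]; constructor <;> push_cast <;> omega)
  rw [hV] at h1
  unfold F at h1
  push_cast at h1
  rw [Ref_val y (3 * (p / 3) + 1) (p / 3) (by omega) (by omega),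
    Ref_val y (3 * (p / 3) + 1 + 4) (p / 3 + 1) (by omega) (by omega),
    Ref_val y (3 * (p / 3) + 1 + 2) (p / 3 + 1) (by omega) (by omega)] at h1
  have := hy (show p / 3 ≤ p / 3 + 1 by omega)
  omega

theorem F_three (y : ℤ → ℤ) (j : ℕ) (u : ℤ) :
    F (Ref y) (3 * j) u = F (Ref y) (3 * j + 1) (3 * (u / 3)) := by
  unfold F
  push_cast
  rw [Ref_val y u (u / 3) (by omega) (by omega),
    Ref_val y (u + 2 * (3 * (j : ℤ))) (u / 3 + 2 * j) (by omega) (by omega),
    Ref_val y (u + 3 * (j : ℤ)) (u / 3 + j) (by omega) (by omega),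
    Ref_val y (3 * (u / 3)) (u / 3) (by omega) (by omega),
    Ref_val y (3 * (u / 3) + 2 * (3 * (j : ℤ) + 1)) (u / 3 + 2 * j) (by omega) (by omega),
    Ref_val y (3 * (u / 3) + (3 * (j : ℤ) + 1)) (u / 3 + j) (by omega) (by omega)]

end ABL
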