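import Pool.Agent.ABL.LL
import Pool.Agent.ABL.Ev
import Pool.Agent.ABL.Sums

/-!
# ABL/Loc: localisation of the slope
-/

namespace ABL

/-- the local lemma in integral form; `μ = m / v`, `E = e / v` -/
theorem Loc_core (Y : ℤ → ℤ) (b : ℤ) (L v1 v2 v : ℕ) (m : ℤ) (e : ℕ) (hv : 0 < v) (he : 0 < e)
    (hL : 1024 ≤ L) (hv1 : L < v1) (hv1' : 32 * v1 ≤ 33 * L) (hv2 : L ≤ 4 * v2) (hv2' : v2 ≤ L)
    (bs : Finset ℕ) (hbs : bs.card * 128 ≤ L)
    (hW : ∀ w : ℕ, L < w → w ≤ 4096 * L → w ∉ bs → ∀ z : ℤ, 0 ≤ z → z + 2 * w ≤ 4096 * L →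
      0 ≤ F Y w (b + z))
    (h3 : ∀ z : ℤ, 0 ≤ z → z + 2 * v1 ≤ 4096 * L →
      (v : ℤ) * S Y v1 (b + z) + 12 * e * v1 ≤ m * (v1 : ℤ) ^ 2)
    (h4 : ∀ j : ℕ, j * v2 ≤ 4096 * L →
      -((j : ℤ) * e) ≤ (v : ℤ) * (Y (b + j * v2) - Y b) - m * (j * v2)) : False := by
  have hvR : (0 : ℝ) < v := by exact_mod_cast hv
  have hv0 : (v : ℝ) ≠ 0 := ne_of_gt hvR
  have heR : (0 : ℝ) < e := by exact_mod_cast he
  refine LL (fun z => ((Y (b + z) - Y b : ℤ) : ℝ) - (m : ℝ) / v * z) L v1 v2 ((e : ℝ) / v)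
    {w | ∀ z : ℤ, 0 ≤ z → z + 2 * w ≤ 4096 * L → 0 ≤ F Y w (b + z)} hL (by positivity) ?_
    ⟨bs, hbs, fun w h1 h2 h3 => hW w h1 h2 h3⟩ hv1 hv1' ?_ hv2 hv2' (by simp) ?_
  · intro w hw z hz hz'
    have h := hw z hz hz'
    have h' : (0 : ℝ) ≤ ((F Y w (b + z) : ℤ) : ℝ) := by exact_mod_cast h
    rw [F] at h'
    push_cast at h' ⊢
    have e1 : b + (z + (w : ℤ)) = b + z + w := by ring
    have e2 : b + (z + 2 * (w : ℤ)) = b + z + 2 * w := by ring
    rw [e1, e2]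
    have e3 : 2 * ((m : ℝ) / v * (z + w)) = (m : ℝ) / v * z + (m : ℝ) / v * (z + 2 * w) := by ring
    linarith
  · intro z hz hz'
    have h := h3 z hz hz'
    have h' : (v : ℝ) * ((S Y v1 (b + z) : ℤ) : ℝ) + 12 * e * v1 ≤ m * (v1 : ℝ) ^ 2 := by
      exact_mod_cast h
    have e1 : ∑ i ∈ Finset.range v1,
        ((((Y (b + (z + v1 + i)) - Y b : ℤ) : ℝ) - (m : ℝ) / v * ((z + v1 + i : ℤ) : ℝ)) -
          (((Y (b + (z + i)) - Y b : ℤ) : ℝ) - (m : ℝ) / v * ((z + i : ℤ) : ℝ))) =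
        ((S Y v1 (b + z) : ℤ) : ℝ) - (m : ℝ) / v * v1 * v1 := by
      rw [S, Int.cast_sum]
      have : ((m : ℝ) / v * v1 * v1) = ∑ i ∈ Finset.range v1, (m : ℝ) / v * v1 := by
        rw [Finset.sum_const, Finset.card_range, nsmul_eq_mul]; ring
      rw [this, ← Finset.sum_sub_distrib]
      refine Finset.sum_congr rfl fun i _ => ?_
      have e1 : b + (z + (v1 : ℤ) + i) = b + z + v1 + i := by ring
      have e2 : b + (z + (i : ℤ)) = b + z + i := by ring
      rw [e1, e2]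
      push_cast
      ring
    rw [e1]
    have e2 : ((S Y v1 (b + z) : ℤ) : ℝ) - (m : ℝ) / v * v1 * v1 - (-12 * ((e : ℝ) / v) * v1) =
        ((v : ℝ) * ((S Y v1 (b + z) : ℤ) : ℝ) + 12 * e * v1 - m * (v1 : ℝ) ^ 2) / v := by
      rw [eq_div_iff hv0]
      field_simp
      ring
    have e3 : ((v : ℝ) * ((S Y v1 (b + z) : ℤ) : ℝ) + 12 * e * v1 - m * (v1 : ℝ) ^ 2) / v ≤ 0 :=
      div_nonpos_of_nonpos_of_nonneg (by linarith) hvR.le
    linarith
  · intro j hj
    have h := h4 j hj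
    have h' : -((j : ℝ) * e) ≤ (v : ℝ) * ((Y (b + j * v2) - Y b : ℤ) : ℝ) - m * (j * v2) := by
      exact_mod_cast h
    have e1 : ((Y (b + ((j * v2 : ℕ) : ℤ)) - Y b : ℤ) : ℝ) - (m : ℝ) / v * (((j * v2 : ℕ) : ℤ) : ℝ)
        - (-(j : ℝ) * ((e : ℝ) / v)) =
        ((v : ℝ) * ((Y (b + j * v2) - Y b : ℤ) : ℝ) - m * (j * v2) - (-((j : ℝ) * e))) / v := by
      push_cast
      field_simp
    have e2 : 0 ≤ ((v : ℝ) * ((Y (b + j * v2) - Y b : ℤ) : ℝ) - m * (j * v2) -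
        (-((j : ℝ) * e))) / v := div_nonneg (by linarith) hvR.le
    linarith

/-- convexity along multiples of `v2` -/
theorem Loc_conv (Y : ℤ → ℤ) (b : ℤ) (v2 : ℕ) (R : ℤ) (c : ℤ)
    (hF : ∀ z : ℤ, 0 ≤ z → z + 2 * v2 ≤ R → 0 ≤ F Y v2 (b + z)) (h0 : c ≤ Y (b + v2) - Y b) :
    ∀ j : ℕ, (j : ℤ) * v2 ≤ R → c * j ≤ Y (b + j * v2) - Y b := by
  have hinc : ∀ j : ℕ, ((j : ℤ) + 1) * v2 ≤ R →
      c ≤ Y (b + ((j : ℤ) + 1) * v2) - Y (b + j * v2) := by
    intro j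
    induction j with
    | zero => intro _; simpa using h0
    | succ j ih =>
      intro hj
      push_cast at hj ⊢
      have h1 := ih (by nlinarith [Int.natCast_nonneg v2])
      have h2 := hF (j * v2) (by positivity) (by nlinarith)
      rw [F] at h2
      have e1 : b + (j : ℤ) * v2 + 2 * v2 = b + ((j : ℤ) + 1 + 1) * v2 := by ring
      have e2 : b + (j : ℤ) * v2 + v2 = b + ((j : ℤ) + 1) * v2 := by ring
      rw [e1, e2] at h2
      linarith
  intro j
  induction j with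
  | zero => intro _; simp
  | succ j ih =>
    intro hj
    push_cast at hj ⊢
    have h1 := ih (by nlinarith [Int.natCast_nonneg v2])
    have h2 := hinc j hj
    linarith [mul_add c (j : ℤ) 1]

/-- `V` of the parent index of a step -/
theorem Loc_V (w : ℕ) (hw : w % 3 ≠ 0) : V (2 * w / 3) = w := by
  obtain ⟨d, hd | hd⟩ : ∃ d, w = 3 * d + 1 ∨ w = 3 * d + 2 := ⟨w / 3, by omega⟩
  · have e : 2 * w / 3 = 2 * d := by omega
    rw [e]; unfold V; omega
  · have e : 2 * w / 3 = 2 * d + 1 := by omega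
    rw [e]; unfold V; omega

theorem Loc_pos (y : ℤ → ℤ) (p : ℤ) (w : ℕ) (hp : Pos (Ref y) p (2 * w / 3)) (u : ℤ)
    (hu : |u - p| + 2 ≤ 65536 * (w : ℤ)) : 0 ≤ F (Ref y) w u := by
  by_cases h : w % 3 = 0
  · obtain ⟨j, rfl⟩ : ∃ j, w = 3 * j := ⟨w / 3, by omega⟩
    have hV : V (2 * (3 * j) / 3) = 3 * j + 1 := by unfold V; omega
    rw [F_three]
    have h1 := hp (3 * (u / 3)) (by
      rw [hV]
      have h3 : u - 2 ≤ 3 * (u / 3) := by omega
      have h4 : 3 * (u / 3) ≤ u := by omega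
      have h5 := abs_le.1 (show |u - p| ≤ 65536 * ((3 * j : ℕ) : ℤ) - 2 by linarith)
      rw [abs_le]
      push_cast at h5 ⊢
      constructor <;> linarith [h5.1, h5.2])
    rw [hV] at h1
    exact le_trans (by norm_num) h1
  · have h1 := hp u (by
      rw [Loc_V w h]
      linarith)
    rw [Loc_V w h] at h1
    exact le_trans (by norm_num) h1

theorem Loc_arith (c1 c2 c3 x z : ℕ) (h1 : c2 * 2097152 ≤ x - z) (h2 : c3 * 2097152 < x)
    (h4 : c1 ≤ c2 + c3) (h6 : z ≤ x) : c1 * 2097152 ≤ 2 * x - z := by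
  have h1' : c2 * 2097152 + z ≤ x := Nat.add_le_of_le_sub h6 h1
  refine Nat.le_sub_of_add_le ?_
  linarith

open Classical in
theorem Loc_count (Y : ℤ → ℤ) (p : ℤ) (a b : ℕ) (hab : a ≤ b)
    (hg : ∀ s, a ≤ s → s < b → Good Y p s) :
    ((Finset.Ico (2 ^ a) (2 ^ b)).filter (fun k => ¬ Pos Y p k)).card * 2 ^ 21 ≤
      2 ^ b - 2 ^ a := by
  induction b, hab using Nat.le_induction with
  | base => simp
  | succ b hab ih =>
    have h1 := ih (fun s hs hs' => hg s hs (by omega))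
    have h2 : nb Y p b * 2 ^ 21 < 2 ^ b := hg b hab (by omega)
    have h3 : (Finset.Ico (2 ^ a) (2 ^ (b + 1))).filter (fun k => ¬ Pos Y p k) ⊆
        (Finset.Ico (2 ^ a) (2 ^ b)).filter (fun k => ¬ Pos Y p k) ∪
        (Finset.Ico (2 ^ b) (2 ^ (b + 1))).filter (fun k => ¬ Pos Y p k) := by
      intro k hk
      rw [Finset.mem_filter, Finset.mem_Ico] at hk
      rw [Finset.mem_union, Finset.mem_filter, Finset.mem_filter, Finset.mem_Ico, Finset.mem_Ico]
      by_cases h : k < 2 ^ b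
      · exact Or.inl ⟨⟨hk.1.1, h⟩, hk.2⟩
      · exact Or.inr ⟨⟨by omega, hk.1.2⟩, hk.2⟩
    have h4 := (Finset.card_le_card h3).trans (Finset.card_union_le _ _)
    have h5 : ((Finset.Ico (2 ^ b) (2 ^ (b + 1))).filter (fun k => ¬ Pos Y p k)).card =
        nb Y p b := rfl
    rw [h5] at h4
    have h6 : 2 ^ a ≤ 2 ^ b := Nat.pow_le_pow_right (by norm_num) hab
    have h7 : 2 ^ (b + 1) = 2 * 2 ^ b := by ring
    have e21 : (2 : ℕ) ^ 21 = 2097152 := by norm_num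
    rw [e21] at h1 h2 ⊢
    rw [h7]
    rw [h7] at h4
    exact Loc_arith _ _ _ _ _ h1 h2 h4 h6

/-- the exceptional set of steps -/
theorem Loc_bad (y : ℤ → ℤ) (p : ℤ) (t T : ℕ) (hg : GA (Ref y) p t T) (hT : t + 14 ≤ T)
    (_ : 7 ≤ t) :
    ∃ bs : Finset ℕ, bs.card * 128 ≤ 2 ^ (t + 3) ∧ ∀ w : ℕ, 2 ^ (t + 3) < w →
      w ≤ 4096 * 2 ^ (t + 3) → w ∉ bs → ∀ u : ℤ, |u - p| + 2 ≤ 65536 * (w : ℤ) →
      0 ≤ F (Ref y) w u := by
  classical
  set K := (Finset.Ico (2 ^ (t + 2)) (2 ^ (t + 15))).filter (fun k => ¬ Pos (Ref y) p k) with hK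
  refine ⟨K.image (fun k => 3 * k / 2) ∪ K.image (fun k => 3 * k / 2 + 1), ?_, ?_⟩
  · have h1 := Loc_count (Ref y) p (t + 2) (t + 15) (by omega)
      (fun s hs hs' => hg s (by omega) (by omega))
    have h2 := (Finset.card_union_le (K.image (fun k => 3 * k / 2))
      (K.image (fun k => 3 * k / 2 + 1)))
    have h3 : (K.image (fun k => 3 * k / 2)).card ≤ K.card := Finset.card_image_le
    have h4 : (K.image (fun k => 3 * k / 2 + 1)).card ≤ K.card := Finset.card_image_le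
    rw [← hK] at h1
    have e1 : 2 ^ (t + 15) = 32768 * 2 ^ t := by rw [pow_add]; ring
    have e2 : 2 ^ (t + 2) = 4 * 2 ^ t := by rw [pow_add]; ring
    have e3 : 2 ^ (t + 3) = 8 * 2 ^ t := by rw [pow_add]; ring
    rw [e1, e2] at h1
    rw [e3]
    have e21 : (2 : ℕ) ^ 21 = 2097152 := by norm_num
    rw [e21] at h1
    omega
  · intro w hw hw' hwb u hu
    refine Loc_pos y p w ?_ u hu
    by_contra hn
    apply hwb
    have e1 : 2 ^ (t + 15) = 32768 * 2 ^ t := by rw [pow_add]; ring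
    have e2 : 2 ^ (t + 2) = 4 * 2 ^ t := by rw [pow_add]; ring
    have e3 : 2 ^ (t + 3) = 8 * 2 ^ t := by rw [pow_add]; ring
    rw [e3] at hw hw'
    have hmem : 2 * w / 3 ∈ K := by
      rw [hK, Finset.mem_filter, Finset.mem_Ico, e1, e2]
      exact ⟨⟨by omega, by omega⟩, hn⟩
    rw [Finset.mem_union, Finset.mem_image, Finset.mem_image]
    by_cases h : w % 3 = 0
    · refine Or.inl ⟨_, hmem, ?_⟩
      obtain ⟨d, hd⟩ : ∃ d, w = 3 * d := ⟨w / 3, by omega⟩
      have e : 2 * w / 3 = 2 * d := by omega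
      rw [e]; omega
    · refine Or.inr ⟨_, hmem, ?_⟩
      have := Loc_V w h
      unfold V at this
      exact this

theorem Loc_mono (Y : ℤ → ℤ) (w : ℕ) (a : ℤ) (n : ℕ)
    (h : ∀ u : ℤ, a ≤ u → u < a + n → 0 ≤ F Y w u) : S Y w a ≤ S Y w (a + n) := by
  induction n with
  | zero => simp
  | succ n ih =>
    have h1 := ih (fun u hu hu' => h u hu (by push_cast; linarith))
    have h2 := h (a + n) (by linarith [Int.natCast_nonneg n]) (by push_cast; linarith)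
    have h3 := S_succ Y w (a + n)
    have e : a + ((n + 1 : ℕ) : ℤ) = a + n + 1 := by push_cast; ring
    rw [e, h3]
    linarith

theorem Loc_mono' (Y : ℤ → ℤ) (w : ℕ) (a c : ℤ) (hac : a ≤ c)
    (h : ∀ u : ℤ, a ≤ u → u < c → 0 ≤ F Y w u) : S Y w a ≤ S Y w c := by
  obtain ⟨n, hn⟩ := Int.eq_ofNat_of_zero_le (show 0 ≤ c - a by linarith)
  have e : c = a + n := by omega
  rw [e]
  refine Loc_mono Y w a n (fun u hu hu' => h u hu (by rw [e]; exact hu'))

theorem loc (y : ℤ → ℤ) (hy : Monotone y) (A : ℕ) (p : ℤ) (t T k k1 k2 h : ℕ) (u : ℤ)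
    (hk : Lev t k) (hu : |u - p| ≤ 65544 * (V k : ℤ)) (hd : EvData A y k u h)
    (hc : k2 = 2 * k ∨ k2 = 2 * k + 1) (hc' : Pos (Ref y) p k2)
    (hg : GA (Ref y) p t T) (hT : t + 14 ≤ T) (ht : 7 ≤ t)
    (h1 : Pos (Ref y) p k1) (hl : 2 ^ (t + 3) < V k1) (hl' : 32 * V k1 ≤ 33 * 2 ^ (t + 3)) :
    (h : ℤ) * (V k1 : ℤ) ^ 2 < V k * S (Ref y) (V k1) (p + 2 ^ (18 + t)) + 12 * (h + V k) * V k1 ∧
    V k * S (Ref y) (V k1) (p - 2 ^ (18 + t)) < (h : ℤ) * (V k1 : ℤ) ^ 2 + 12 * (h + V k) * V k1 := by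
  classical
  obtain ⟨bs, hbs, hW⟩ := Loc_bad y p t T hg hT ht
  have hk' := hk
  obtain ⟨hk1, hk2⟩ := hk
  have e0 : 2 ^ (t + 1) = 2 * 2 ^ t := by rw [pow_succ]; ring
  have e3 : 2 ^ (t + 3) = 8 * 2 ^ t := by rw [pow_add]; ring
  have e18 : (2 : ℤ) ^ (18 + t) = 262144 * 2 ^ t := by rw [pow_add]; norm_num
  have ht' : 128 ≤ 2 ^ t := by
    calc 128 = 2 ^ 7 := by norm_num
      _ ≤ 2 ^ t := Nat.pow_le_pow_right (by norm_num) ht
  obtain ⟨q, hq⟩ : ∃ q : ℕ, q = 2 ^ t := ⟨_, rfl⟩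
  have hqz : (2 : ℤ) ^ t = (q : ℤ) := by rw [hq]; push_cast; rfl
  rw [e18, hqz]
  rw [e3, ← hq] at hbs hW hl hl'
  rw [e0] at hk2
  rw [← hq] at hk1 hk2 ht'
  set v := V k with hvdef
  set v1 := V k1 with hv1def
  set v2 := V k2 with hv2def
  have hv2c : v2 = 3 * k + 1 ∨ v2 = 3 * k + 2 := by
    rw [hv2def]; unfold V
    rcases hc with hc | hc <;> rw [hc] <;> omega
  have hvk : v = 3 * k / 2 + 1 := hvdef
  have hvlo : 3 * q + 2 ≤ 2 * v + 1 := by omega
  have hvhi : v + 1 ≤ 3 * q := by omega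
  have hv2lo : 2 * v ≤ v2 + 1 := by omega
  have hv2hi : v2 ≤ 2 * v + 1 := by omega
  have hvpos : 0 < v := by omega
  obtain ⟨-, hdd⟩ := hd
  obtain ⟨⟨b, hb1, hb2, hb3⟩, ⟨c, hc1, hc2, hc3⟩⟩ := hdd v2 hv2c
  have hu' := abs_le.1 hu
  have hposF : ∀ x : ℤ, |x - p| ≤ 65536 * (v2 : ℤ) → 0 ≤ F (Ref y) v2 x := fun x hx =>
    le_trans (by norm_num) (hc' x hx)
  have hposF1 : ∀ x : ℤ, |x - p| ≤ 65536 * (v1 : ℤ) → 0 ≤ F (Ref y) v1 x := fun x hx =>
    le_trans (by norm_num) (h1 x hx)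
  constructor
  · -- to the right
    by_contra hcon
    push Not at hcon
    refine Loc_core (Ref y) b (8 * q) v1 v2 v h (h + v) hvpos (by omega) (by omega) hl hl'
      (by omega) (by omega) bs hbs ?_ ?_ ?_
    · intro w hw hw' hwb z hz hz'
      refine hW w hw hw' hwb _ ?_
      have : |b + z - p| ≤ 65536 * (w : ℤ) - 2 := by
        rw [abs_le]; push_cast at hz'; constructor <;> omega
      linarith
    · intro z hz hz'
      push_cast at hz' ⊢
      have hm : S (Ref y) v1 (b + z) ≤ S (Ref y) v1 (p + 262144 * q) := by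
        refine Loc_mono' _ _ _ _ (by omega) (fun x hx hx' => hposF1 x ?_)
        rw [abs_le]; constructor <;> omega
      have hm' : (v : ℤ) * S (Ref y) v1 (b + z) ≤ v * S (Ref y) v1 (p + 262144 * q) :=
        mul_le_mul_of_nonneg_left hm (by positivity)
      linarith
    · intro j hj
      have hcv := Loc_conv (Ref y) b v2 (4096 * (8 * q)) (2 * h) (fun z hz hz' => by
        refine hposF _ ?_
        rw [abs_le]; constructor <;> omega) hb3 j (by exact_mod_cast hj)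
      have h5 : (v : ℤ) * (2 * h * j) ≤ v * (Ref y (b + j * v2) - Ref y b) :=
        mul_le_mul_of_nonneg_left hcv (by positivity)
      have h6 : (h : ℤ) * (j * v2) ≤ h * (j * (2 * v + 1)) := by
        refine mul_le_mul_of_nonneg_left (mul_le_mul_of_nonneg_left ?_ (by positivity))
          (by positivity)
        exact_mod_cast hv2hi
      push_cast
      have h7 : (0 : ℤ) ≤ j * v := by positivity
      linarith
  · -- to the left
    by_contra hcon
    push Not at hcon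
    have hFr : ∀ (w : ℕ) (x : ℤ), F (fun z => Ref y (-z)) w x = F (Ref y) w (-x - 2 * w) := by
      intro w x
      simp only [F]
      have e1 : -(x + 2 * (w : ℤ)) = -x - 2 * w := by ring
      have e2 : -(x + (w : ℤ)) = -x - 2 * w + w := by ring
      have e3 : -x = -x - 2 * (w : ℤ) + 2 * w := by ring
      rw [e1, e2, ← e3]; ring
    have hSr : ∀ (w : ℕ) (x : ℤ), S (fun z => Ref y (-z)) w x =
        - S (Ref y) w (-x - 2 * w + 1) := by
      intro w x
      simp only [S]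
      rw [← Finset.sum_neg_distrib, ← Finset.sum_range_reflect]
      refine Finset.sum_congr rfl fun i hi => ?_
      rw [Finset.mem_range] at hi
      have ew : ((w - 1 - i : ℕ) : ℤ) = w - 1 - i := by omega
      have e1 : -(x + (w : ℤ) + ((w - 1 - i : ℕ) : ℤ)) = -x - 2 * w + 1 + i := by rw [ew]; ring
      have e2 : -(x + ((w - 1 - i : ℕ) : ℤ)) = -x - 2 * w + 1 + w + i := by rw [ew]; ring
      rw [e1, e2]; ring
    refine Loc_core (fun z => Ref y (-z)) (-(c + v2)) (8 * q) v1 v2 v (-(h : ℤ)) (h + v) hvpos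
      (by omega) (by omega) hl hl' (by omega) (by omega) bs hbs ?_ ?_ ?_
    · intro w hw hw' hwb z hz hz'
      rw [hFr]
      refine hW w hw hw' hwb _ ?_
      have : |-(-(c + (v2 : ℤ)) + z) - 2 * w - p| ≤ 65536 * (w : ℤ) - 2 := by
        rw [abs_le]; push_cast at hz'; constructor <;> omega
      linarith
    · intro z hz hz'
      push_cast at hz' ⊢
      rw [hSr]
      have hm : S (Ref y) v1 (p - 262144 * q) ≤
          S (Ref y) v1 (-(-(c + (v2 : ℤ)) + z) - 2 * v1 + 1) := by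
        refine Loc_mono' _ _ _ _ (by omega) (fun x hx hx' => hposF1 x ?_)
        rw [abs_le]; constructor <;> omega
      have hm' : (v : ℤ) * S (Ref y) v1 (p - 262144 * q) ≤
          v * S (Ref y) v1 (-(-(c + (v2 : ℤ)) + z) - 2 * v1 + 1) :=
        mul_le_mul_of_nonneg_left hm (by positivity)
      linarith
    · intro j hj
      have hcv := Loc_conv (fun z => Ref y (-z)) (-(c + v2)) v2 (4096 * (8 * q)) (-(2 * h))
        (fun z hz hz' => by
          rw [hFr]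
          refine hposF _ ?_
          rw [abs_le]; constructor <;> omega) (by
          have e1 : -(-(c + (v2 : ℤ)) + v2) = c := by ring
          have e2 : -(-(c + (v2 : ℤ))) = c + v2 := by ring
          simp only [e1, e2]
          linarith) j (by exact_mod_cast hj)
      have h5 : (v : ℤ) * (-(2 * h) * j) ≤ v * (Ref y (-(-(c + (v2 : ℤ)) + j * v2)) -
          Ref y (-(-(c + (v2 : ℤ))))) :=
        mul_le_mul_of_nonneg_left hcv (by positivity)
      have h6 : (h : ℤ) * (j * (2 * v)) ≤ h * (j * (v2 + 1)) := by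
        refine mul_le_mul_of_nonneg_left (mul_le_mul_of_nonneg_left ?_ (by positivity))
          (by positivity)
        exact_mod_cast hv2lo
      push_cast
      have h7 : (0 : ℤ) ≤ j * v := by positivity
      linarith

end ABL
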