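import Pool.Agent.ABL.Defs
import Pool.Agent.ABL.Sums
import Pool.Agent.ABL.Loc
import Pool.Agent.ABL.Slope
import Pool.Agent.ABL.Cross

/-!
# ABL, module Mult: a vector occurs only in a short window
-/

namespace ABL

theorem exists_k1 (Y : ℤ → ℤ) (p : ℤ) (t T : ℕ) (hg : GA Y p t T) (hT : t + 2 ≤ T) (ht : 7 ≤ t) :
    ∃ k1, Pos Y p k1 ∧ 2 ^ (t + 3) < V k1 ∧ 32 * V k1 ≤ 33 * 2 ^ (t + 3) := by
  classical
  by_contra hcon
  push Not at hcon
  obtain ⟨t', rfl⟩ : ∃ t', t = t' + 3 := ⟨t - 3, by omega⟩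
  set m : ℕ := 2 ^ t' with hm
  have hm1 : 16 ≤ m := by
    rw [hm]
    calc 16 = 2 ^ 4 := by norm_num
      _ ≤ 2 ^ t' := Nat.pow_le_pow_right (by norm_num) (by omega)
  have e1 : 2 ^ (t' + 3 + 3) = 64 * m := by rw [hm]; ring
  have e2 : 2 ^ (t' + 3 + 2) = 32 * m := by rw [hm]; ring
  have e3 : 2 ^ (t' + 3 + 2 + 1) = 64 * m := by rw [hm]; ring
  have hgood := hg (t' + 3 + 2) (by omega) hT
  unfold Good nb at hgood
  rw [e2, e3] at hgood
  have hsub : Finset.Ico ((128 * m + 2) / 3) ((128 * m + 2) / 3 + m) ⊆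
      (Finset.Ico (32 * m) (64 * m)).filter (fun k => ¬ Pos Y p k) := by
    intro k hk
    rw [Finset.mem_Ico] at hk
    rw [Finset.mem_filter, Finset.mem_Ico]
    refine ⟨⟨by omega, by omega⟩, fun hp => ?_⟩
    have h1 := hcon k hp
    rw [e1] at h1
    unfold V at h1
    have h2 := h1 (by omega)
    omega
  have hcard := Finset.card_le_card hsub
  rw [Nat.card_Ico, Nat.add_sub_cancel_left] at hcard
  omega

theorem Mult_lev {t k : ℕ} (h1 : 2 ^ (t + 3) < V k) (h2 : 32 * V k ≤ 33 * 2 ^ (t + 3)) :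
    Lev (t + 2) k := by
  have e1 : 2 ^ (t + 3) = 8 * 2 ^ t := by ring
  have e2 : 2 ^ (t + 2) = 4 * 2 ^ t := by ring
  have e3 : 2 ^ (t + 2 + 1) = 8 * 2 ^ t := by ring
  have hp : 1 ≤ 2 ^ t := Nat.one_le_two_pow
  unfold Lev
  unfold V at h1 h2
  rw [e1] at h1 h2
  rw [e2, e3]
  constructor <;> omega

theorem Mult_incr (Y : ℤ → ℤ) (p : ℤ) (k1 : ℕ) (hp : Pos Y p k1) (z : ℤ) (n : ℕ)
    (h1 : p ≤ z) (h2 : z + n ≤ p + 65536 * (V k1 : ℤ)) :
    S Y (V k1) z + n ≤ S Y (V k1) (z + n) := by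
  induction n with
  | zero => simp
  | succ n ih =>
    have h3 := ih (by push_cast at h2; linarith)
    have h4 : 1 ≤ F Y (V k1) (z + n) := by
      apply hp
      rw [abs_le]
      push_cast at h2
      constructor <;> [linarith [Int.natCast_nonneg n, Int.natCast_nonneg (V k1)]; linarith]
    have h5 := S_succ Y (V k1) (z + n)
    have h6 : z + ((n + 1 : ℕ) : ℤ) = z + n + 1 := by push_cast; ring
    rw [h6, h5]
    push_cast
    linarith

theorem Mult_arith (q q' v h L s1 s2 : ℤ) (hL : 1024 ≤ L) (hv : 1 ≤ v) (hh : 0 ≤ h)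
    (hq : L < q) (hq' : L < q') (hqu : 32 * q ≤ 33 * L) (hqu' : 32 * q' ≤ 33 * L)
    (hR : h * q ^ 2 < v * s1 + 12 * (h + v) * q)
    (hLf : v * s2 < h * q' ^ 2 + 12 * (h + v) * q')
    (hs : s1 ≤ 25 * q ^ 2)
    (hcr : q' ^ 2 * (s1 + 1024 * L) ≤ q ^ 2 * s2) : False := by
  have hq0 : 0 < q := by linarith
  have hq0' : 0 < q' := by linarith
  -- bound on `h`
  have hb : h ≤ 26 * v := by
    by_contra hcon
    push Not at hcon
    have h1 : v * s1 ≤ v * (25 * q ^ 2) := mul_le_mul_of_nonneg_left hs (by linarith)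
    have h2 : q * (h * q) < q * (25 * v * q + 12 * (h + v)) := by nlinarith
    have h3 : h * q < 25 * v * q + 12 * (h + v) := lt_of_mul_lt_mul_left h2 hq0.le
    nlinarith
  -- combine
  have h4 : q' ^ 2 * (v * s1 + v * (1024 * L)) ≤ q ^ 2 * (v * s2) := by
    have := mul_le_mul_of_nonneg_left hcr (by linarith : (0 : ℤ) ≤ v)
    nlinarith
  have h5 : q ^ 2 * (v * s2) < q ^ 2 * (h * q' ^ 2 + 12 * (h + v) * q') :=
    mul_lt_mul_of_pos_left hLf (by positivity)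
  have h6 : q' ^ 2 * (h * q ^ 2) < q' ^ 2 * (v * s1 + 12 * (h + v) * q) :=
    mul_lt_mul_of_pos_left hR (by positivity)
  have h7 : q' * (q' * (v * (1024 * L))) < q' * (12 * (h + v) * q * (q + q')) := by
    nlinarith
  have h8 : q' * (v * (1024 * L)) < 12 * (h + v) * q * (q + q') :=
    lt_of_mul_lt_mul_left h7 hq0'.le
  -- estimates
  have h9 : L * (v * (1024 * L)) ≤ q' * (v * (1024 * L)) :=
    mul_le_mul_of_nonneg_right hq'.le (by positivity)
  have h10 : (32 * q) * (32 * (q + q')) ≤ (33 * L) * (66 * L) :=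
    mul_le_mul hqu (by linarith) (by positivity) (by positivity)
  have h11 : 12 * (h + v) * (q * (q + q') * 1024) ≤ 12 * (27 * v) * (2178 * L ^ 2) := by
    apply mul_le_mul
    · linarith
    · nlinarith
    · positivity
    · positivity
  have h12 : 0 < v * L ^ 2 := by positivity
  nlinarith

theorem Mult_range {A B : ℕ} {y : ℤ → ℤ} (hy : Adm A B y) (u v : ℤ) : Ref y u - Ref y v ≤ B := by
  unfold Ref
  have h1 : y (u / 3) ≤ B := by
    rcases le_total (A : ℤ) (u / 3) with h | h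
    · rw [hy.big _ h]
    · rw [← hy.big A le_rfl]
      exact hy.mono h
  have h2 : 0 ≤ y (v / 3) := by
    by_cases h : v / 3 < 0
    · rw [hy.neg _ h]
    · have h3 : y (-1) ≤ y (v / 3) := hy.mono (by omega)
      rw [hy.neg (-1) (by norm_num)] at h3
      exact h3
  linarith

theorem Mult_mono {A B : ℕ} {y : ℤ → ℤ} (hy : Adm A B y) : Monotone (Ref y) := by
  intro a b hab
  exact hy.mono (Int.ediv_le_ediv (by norm_num) hab)

theorem mult (A B : ℕ) (y : ℤ → ℤ) (hy : Adm A B y) (T : ℕ) (hT : 3 * A < 2 ^ 21 * 2 ^ T)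
    (p p' : ℤ) (t k h : ℕ) (hpp : p < p') (hD : p' - p ≤ 64 * 2 ^ T) (ht : t < T) (hk : Lev t k)
    (hg : GA (Ref y) p t T) (hg' : GA (Ref y) p' t T)
    (hd : ∃ u : ℤ, |u - p| ≤ 65544 * (V k : ℤ) ∧ EvData A y k u h)
    (hd' : ∃ u : ℤ, |u - p'| ≤ 65544 * (V k : ℤ) ∧ EvData A y k u h)
    (hc : Pos (Ref y) p (2 * k) ∨ Pos (Ref y) p (2 * k + 1))
    (hc' : Pos (Ref y) p' (2 * k) ∨ Pos (Ref y) p' (2 * k + 1)) :
    p' - p < 2 ^ (20 + t) := by
  by_contra hcon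
  push Not at hcon
  have hY : Monotone (Ref y) := Mult_mono hy
  have ht7 : 7 ≤ t := small_level (Ref y) hY A B (Mult_range hy) hy.le p t T hT ht hg
  have hT14 : t + 14 ≤ T := by
    have h1 : (2 : ℤ) ^ (20 + t) ≤ 2 ^ (T + 6) := by
      calc (2 : ℤ) ^ (20 + t) ≤ p' - p := hcon
        _ ≤ 64 * 2 ^ T := hD
        _ = 2 ^ (T + 6) := by ring
    have h2 : 20 + t ≤ T + 6 := (pow_le_pow_iff_right₀ (by norm_num : (1 : ℤ) < 2)).mp h1
    omega
  obtain ⟨k1, hk1, hl1, hu1⟩ := exists_k1 (Ref y) p t T hg (by omega) ht7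
  obtain ⟨k1', hk1', hl1', hu1'⟩ := exists_k1 (Ref y) p' t T hg' (by omega) ht7
  obtain ⟨u, hu, hud⟩ := hd
  obtain ⟨u', hu', hud'⟩ := hd'
  obtain ⟨k2, hk2, hk2p⟩ : ∃ k2, (k2 = 2 * k ∨ k2 = 2 * k + 1) ∧ Pos (Ref y) p k2 := by
    rcases hc with hc | hc
    · exact ⟨_, Or.inl rfl, hc⟩
    · exact ⟨_, Or.inr rfl, hc⟩
  obtain ⟨k2', hk2', hk2p'⟩ : ∃ k2, (k2 = 2 * k ∨ k2 = 2 * k + 1) ∧ Pos (Ref y) p' k2 := by
    rcases hc' with hc | hc
    · exact ⟨_, Or.inl rfl, hc⟩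
    · exact ⟨_, Or.inr rfl, hc⟩
  have hR := (loc y hy.mono A p t T k k1 k2 h u hk hu hud hk2 hk2p hg hT14 ht7 hk1 hl1 hu1).1
  have hLf := (loc y hy.mono A p' t T k k1' k2' h u' hk hu' hud' hk2' hk2p' hg' hT14 ht7 hk1' hl1'
    hu1').2
  have hgs : GA (Ref y) p (t + 2) T := fun s hs => hg s (by omega)
  set a : ℤ := 2 ^ t with ha
  have ha128 : 128 ≤ a := by
    rw [ha]
    calc (128 : ℤ) = 2 ^ 7 := by norm_num
      _ ≤ 2 ^ t := pow_le_pow_right₀ (by norm_num) ht7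
  have e18 : (2 : ℤ) ^ (18 + t) = 262144 * a := by rw [ha]; ring
  have e13 : (2 : ℤ) ^ (13 + t) = 8192 * a := by rw [ha]; ring
  have e3 : (2 : ℤ) ^ (t + 3) = 8 * a := by rw [ha]; ring
  have e2 : (2 : ℤ) ^ (t + 2) = 4 * a := by rw [ha]; ring
  have hs := slope_bound (Ref y) hY A B (Mult_range hy) hy.le p (t + 2) T k1 hT
    (p + 2 ^ (18 + t)) (by omega) hgs (Mult_lev hl1 hu1) hk1 (by
      rw [add_sub_cancel_left, e18, e2, abs_of_nonneg (by positivity)]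
      linarith)
  have hcr := cross (Ref y) p p' t T k1 k1' hcon hD hg hg' hk1 hl1 hu1 hk1' hl1' hu1'
  have hl1z : 8 * a < (V k1 : ℤ) := by
    rw [← e3]; exact_mod_cast hl1
  have hl1z' : 8 * a < (V k1' : ℤ) := by
    rw [← e3]; exact_mod_cast hl1'
  have hu1z : 32 * (V k1 : ℤ) ≤ 33 * (8 * a) := by
    rw [← e3]; exact_mod_cast hu1
  have hu1z' : 32 * (V k1' : ℤ) ≤ 33 * (8 * a) := by
    rw [← e3]; exact_mod_cast hu1'
  have hinc := Mult_incr (Ref y) p k1 hk1 (p + 2 ^ (18 + t)) (2 ^ (13 + t))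
    (by rw [e18]; linarith) (by
      push_cast
      rw [e18, e13]
      linarith)
  push_cast at hinc
  have hv : (1 : ℤ) ≤ (V k : ℤ) := by
    unfold V
    push_cast
    omega
  refine Mult_arith (V k1) (V k1') (V k) h (8 * a) (S (Ref y) (V k1) (p + 2 ^ (18 + t)))
    (S (Ref y) (V k1') (p' - 2 ^ (18 + t))) (by linarith) hv (Int.natCast_nonneg h) hl1z hl1z'
    hu1z hu1z' hR hLf hs ?_
  refine le_trans ?_ hcr
  apply mul_le_mul_of_nonneg_left _ (by positivity)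
  have : 1024 * (8 * a) = 2 ^ (13 + t) := by rw [e13]; ring
  rw [this]
  exact hinc

end ABL
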