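import Pool.Agent.ABL.Defs

/-! # Module Word: from binary words to height functions -/

set_option autoImplicit false

namespace ABL

/-- number of `false` before the `(i+1)`-st `true` -/
def Word_yv : List Bool → ℕ → ℕ
  | [], _ => 0
  | false :: w, i => Word_yv w i + 1
  | true :: _, 0 => 0
  | true :: w, i + 1 => Word_yv w i

theorem Word_yv_mono_succ (w : List Bool) (i : ℕ) : Word_yv w i ≤ Word_yv w (i + 1) := by
  induction w generalizing i with
  | nil => exact le_rfl
  | cons b w ih =>
    cases b with
    | false => exact Nat.succ_le_succ (ih i)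
    | true =>
      cases i with
      | zero => exact Nat.zero_le _
      | succ i => exact ih i

theorem Word_yv_mono (w : List Bool) : Monotone (Word_yv w) :=
  monotone_nat_of_le_succ (Word_yv_mono_succ w)

theorem Word_yv_big (w : List Bool) {i : ℕ} (h : w.count true ≤ i) :
    Word_yv w i = w.count false := by
  induction w generalizing i with
  | nil => rfl
  | cons b w ih =>
    cases b with
    | false =>
      rw [List.count_cons_of_ne (by simp)] at h
      show Word_yv w i + 1 = _
      rw [ih h, List.count_cons_self]
    | true =>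
      rw [List.count_cons_self] at h
      cases i with
      | zero => omega
      | succ i =>
        show Word_yv w i = _
        rw [ih (by omega), List.count_cons_of_ne (by simp)]

/-- the lower end of the vertical run at `x` -/
def Word_lo (w : List Bool) : ℕ → ℕ
  | 0 => 0
  | x + 1 => Word_yv w x

theorem Word_path (w : List Bool) (x h : ℕ) (hx : x ≤ w.count true) (h1 : Word_lo w x ≤ h)
    (h2 : h ≤ Word_yv w x) : ∃ u, u <+: w ∧ u.count true = x ∧ u.count false = h := by
  induction w generalizing x h with
  | nil =>
    have hx0 : x = 0 := by simpa using hx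
    have hh : h = 0 := by
      have : Word_yv [] x = 0 := rfl
      omega
    subst hx0 hh
    exact ⟨[], List.nil_prefix, rfl, rfl⟩
  | cons b w ih =>
    cases b with
    | false =>
      rw [List.count_cons_of_ne (by simp)] at hx
      have e2 : Word_yv (false :: w) x = Word_yv w x + 1 := rfl
      cases h with
      | zero =>
        cases x with
        | zero => exact ⟨[], List.nil_prefix, rfl, rfl⟩
        | succ x =>
          exfalso
          have : Word_lo (false :: w) (x + 1) = Word_yv w x + 1 := rfl
          omega
      | succ h =>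
        obtain ⟨u, hu1, hu2, hu3⟩ := ih x h hx (by
          cases x with
          | zero => exact Nat.zero_le _
          | succ x =>
            have e3 : Word_lo (false :: w) (x + 1) = Word_yv w x + 1 := rfl
            show Word_yv w x ≤ h
            omega) (by omega)
        refine ⟨false :: u, List.prefix_cons_inj _ |>.2 hu1, ?_, ?_⟩
        · rw [List.count_cons_of_ne (by simp), hu2]
        · rw [List.count_cons_self, hu3]
    | true =>
      rw [List.count_cons_self] at hx
      cases x with
      | zero =>
        have e2 : Word_yv (true :: w) 0 = 0 := rfl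
        have hh : h = 0 := by omega
        subst hh
        exact ⟨[], List.nil_prefix, rfl, rfl⟩
      | succ x =>
        obtain ⟨u, hu1, hu2, hu3⟩ := ih x h (by omega) (by
          cases x with
          | zero => exact Nat.zero_le _
          | succ x => exact h1) h2
        refine ⟨true :: u, List.prefix_cons_inj _ |>.2 hu1, ?_, ?_⟩
        · rw [List.count_cons_self, hu2]
        · rw [List.count_cons_of_ne (by simp), hu3]

/-- the height function of a word -/
def Word_y (w : List Bool) (i : ℤ) : ℤ := if i < 0 then 0 else (Word_yv w i.toNat : ℤ)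

theorem Word_y_nonneg (w : List Bool) (i : ℤ) : 0 ≤ Word_y w i := by
  unfold Word_y
  split_ifs
  · exact le_rfl
  · exact Int.natCast_nonneg _

theorem Word_adm (w : List Bool) (h : w.count false ≤ w.count true) :
    Adm (w.count true) (w.count false) (Word_y w) := by
  refine ⟨?_, ?_, ?_, h⟩
  · intro i j hij
    unfold Word_y
    split_ifs with h1 h2 h2
    · exact le_rfl
    · exact Int.natCast_nonneg _
    · omega
    · exact_mod_cast Word_yv_mono w (Int.toNat_le_toNat hij)
  · intro i hi
    unfold Word_y
    rw [if_pos hi]
  · intro i hi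
    unfold Word_y
    have h0 : ¬ i < 0 := by
      have : (0 : ℤ) ≤ (w.count true : ℤ) := Int.natCast_nonneg _
      omega
    rw [if_neg h0, Word_yv_big w (by omega)]

theorem Word_point (w : List Bool) (x h : ℤ) (hx0 : 0 ≤ x) (hx : x ≤ w.count true)
    (h1 : Word_y w (x - 1) ≤ h) (h2 : h ≤ Word_y w x) :
    ∃ u, u <+: w ∧ (u.count true : ℤ) = x ∧ (u.count false : ℤ) = h := by
  have hh : 0 ≤ h := (Word_y_nonneg w _).trans h1
  obtain ⟨x, rfl⟩ := Int.eq_ofNat_of_zero_le hx0
  obtain ⟨h, rfl⟩ := Int.eq_ofNat_of_zero_le hh
  have h2' : h ≤ Word_yv w x := by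
    unfold Word_y at h2
    rw [if_neg (by omega)] at h2
    simpa using h2
  have h1' : Word_lo w x ≤ h := by
    cases x with
    | zero => exact Nat.zero_le _
    | succ x =>
      unfold Word_y at h1
      have e : ((x + 1 : ℕ) : ℤ) - 1 = (x : ℤ) := by push_cast; ring
      rw [e, if_neg (by omega)] at h1
      show Word_yv w x ≤ h
      simpa using h1
  obtain ⟨u, hu1, hu2, hu3⟩ := Word_path w x h (by exact_mod_cast hx) h1' h2'
  exact ⟨u, hu1, by exact_mod_cast hu2, by exact_mod_cast hu3⟩

/-- the set counted by `T` -/
def Word_TS (w : List Bool) : Set (ℕ × ℕ) :=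
  {p : ℕ × ℕ | ∃ u v : List Bool, u ≠ [] ∧ (u ++ v) <:+: w ∧
    u.count true = v.count true ∧ u.count false = v.count false ∧
    p = (u.count true, u.count false)}

theorem Word_T_eq (w : List Bool) : T w = Set.ncard (Word_TS w) := rfl

theorem Word_TS_finite (w : List Bool) : (Word_TS w).Finite := by
  apply Set.Finite.subset (((Finset.range (w.length + 1)) ×ˢ
    (Finset.range (w.length + 1))).finite_toSet)
  rintro p ⟨u, v, -, huv, -, -, rfl⟩
  have hlen : (u ++ v).length ≤ w.length := huv.length_le
  rw [List.length_append] at hlen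
  have h1 : u.count true ≤ u.length := List.count_le_length
  have h2 : u.count false ≤ u.length := List.count_le_length
  simp only [Finset.coe_product, Set.mem_prod, Finset.coe_range, Set.mem_Iio]
  omega

theorem Word_count_len (w : List Bool) : w.length = w.count true + w.count false := by
  induction w with
  | nil => rfl
  | cons b w ih =>
    rw [List.length_cons, List.count_cons, List.count_cons, ih]
    cases b
    · simp
      omega
    · simp
      omega

theorem word_to_seq (w : List Bool) (h : w.count false ≤ w.count true) :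
    ∃ y : ℤ → ℤ, Adm (w.count true) (w.count false) y ∧
      Set.ncard {q : ℕ × ℕ | 1 ≤ q.1 ∧ Sq (w.count true) y q.1 q.2} ≤ T w := by
  refine ⟨Word_y w, Word_adm w h, ?_⟩
  rw [Word_T_eq]
  apply Set.ncard_le_ncard _ (Word_TS_finite w)
  rintro ⟨j, k⟩ ⟨hj, x, h0, hx0, hx, a1, a2, b1, b2, c1, c2⟩
  simp only at hj hx a1 a2 b1 b2 c1 c2
  obtain ⟨p1, hp1, t1, f1⟩ := Word_point w x h0 hx0 (by omega) a1 a2
  obtain ⟨p2, hp2, t2, f2⟩ := Word_point w (x + j) (h0 + k) (by omega) (by omega) b1 b2
  obtain ⟨p3, hp3, t3, f3⟩ := Word_point w (x + 2 * j) (h0 + 2 * k) (by omega) (by omega)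
    c1 c2
  have l1 := Word_count_len p1
  have l2 := Word_count_len p2
  have l3 := Word_count_len p3
  have h12 : p1 <+: p2 := List.prefix_of_prefix_length_le hp1 hp2 (by omega)
  have h23 : p2 <+: p3 := List.prefix_of_prefix_length_le hp2 hp3 (by omega)
  obtain ⟨u, rfl⟩ := h12
  obtain ⟨v, rfl⟩ := h23
  obtain ⟨r, hr⟩ := hp3
  rw [List.count_append] at t2 f2
  rw [List.count_append, List.count_append] at t3 f3
  push_cast at t2 f2 t3 f3
  refine ⟨u, v, ?_, ⟨p1, r, ?_⟩, by omega, by omega, ?_⟩
  · intro hu
    rw [hu] at t2
    simp only [List.count_nil] at t2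
    push_cast at t2
    omega
  · rw [← hr]
    simp [List.append_assoc]
  · ext
    · show j = u.count true
      omega
    · show k = u.count false
      omega

theorem Word_not_not (w : List Bool) : (w.map (!·)).map (!·) = w := by
  rw [List.map_map]
  have : ((fun b : Bool => !b) ∘ fun b : Bool => !b) = id := by
    funext b
    simp
  rw [this, List.map_id]

theorem Word_count_not (w : List Bool) (b : Bool) : (w.map (!·)).count b = w.count (!b) := by
  induction w with
  | nil => rfl
  | cons c w ih =>
    rw [List.map_cons, List.count_cons, List.count_cons, ih]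
    cases b <;> cases c <;> simp

theorem Word_TS_swap {w : List Bool} {p : ℕ × ℕ} (h : p ∈ Word_TS w) :
    p.swap ∈ Word_TS (w.map (!·)) := by
  obtain ⟨u, v, hu, ⟨s, r, huv⟩, h1, h2, rfl⟩ := h
  refine ⟨u.map (!·), v.map (!·), ?_, ⟨s.map (!·), r.map (!·), ?_⟩, ?_, ?_, ?_⟩
  · simpa using hu
  · rw [← huv]
    simp [List.map_append]
  · rw [Word_count_not, Word_count_not]
    exact h2
  · rw [Word_count_not, Word_count_not]
    exact h1
  · rw [Word_count_not, Word_count_not]
    rfl

theorem T_compl (w : List Bool) : T (w.map (!·)) = T w := by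
  rw [Word_T_eq, Word_T_eq]
  have h : Word_TS (w.map (!·)) = Prod.swap '' Word_TS w := by
    ext p
    constructor
    · intro hp
      have h1 := Word_TS_swap hp
      rw [Word_not_not] at h1
      exact ⟨p.swap, h1, Prod.swap_swap p⟩
    · rintro ⟨q, hq, rfl⟩
      exact Word_TS_swap hq
  rw [h, Set.ncard_image_of_injective _ Prod.swap_injective]

end ABL
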